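import Pool.Agent.SpecFlow.Foelner

/-!
Helper file for MP_a51306_an: elementary facts about amenable groups.
-/

set_option autoImplicit false
open Filter Topology
open scoped Classical Pointwise

namespace Pool.Agent.SpecFlow

/-- Subgroups of amenable groups are amenable. -/
theorem Amenable.of_injective {Γ Δ : Type*} [Group Γ] [Group Δ] (hΔ : Amenable Δ) (f : Γ →* Δ)
    (hf : Function.Injective f) : Amenable Γ := by
  intro S ε hε
  set e : Γ ≃* f.range := MonoidHom.ofInjective hf with he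
  have hef : ∀ g, ((e g : f.range) : Δ) = f g := fun g => rfl
  set ε' : ℝ := ε / (S.card + 1) with hε'
  have hε'0 : 0 < ε' := by positivity
  obtain ⟨F, hF, hFS⟩ := hΔ (S.image f) ε' hε'0
  have hF0 : 0 < (F.card : ℝ) := by exact_mod_cast hF.card_pos
  obtain ⟨F', hF'ne, hF'⟩ := coset f.range (S.image e) F F (Finset.Subset.refl _) ε (by
    calc ∑ s ∈ S.image e, (((F.filter fun y => ¬ ((s : Δ) * y ∈ F ↔ y ∈ F)).card : ℕ) : ℝ)
        ≤ ∑ _s ∈ S.image e, ε' * F.card := by
          refine Finset.sum_le_sum fun s hs => ?_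
          obtain ⟨g, hg, rfl⟩ := Finset.mem_image.1 hs
          refine le_trans ?_ (hFS (f g) (Finset.mem_image_of_mem f hg))
          rw [Nat.cast_le]
          refine Finset.card_le_card ?_
          intro y hy
          rw [Finset.mem_filter] at hy ⊢
          refine ⟨hy.1, fun h => hy.2 ?_⟩
          rw [hef]
          exact ⟨fun _ => hy.1, fun _ => h⟩
      _ = (S.image e).card * (ε' * F.card) := by rw [Finset.sum_const, nsmul_eq_mul]
      _ ≤ S.card * (ε' * F.card) := by
          refine mul_le_mul_of_nonneg_right ?_ (by positivity)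
          exact_mod_cast Finset.card_image_le
      _ < ε * F.card := by
          rw [hε', ← mul_assoc]
          refine mul_lt_mul_of_pos_right ?_ hF0
          rw [mul_div_assoc', div_lt_iff₀ (by positivity)]
          nlinarith)
  refine ⟨F'.image e.symm, hF'ne.image _, fun s hs => ?_⟩
  have h1 := Finset.single_le_sum
    (f := fun s => (((F'.filter fun x => s * x ∉ F').card : ℕ) : ℝ))
    (fun _ _ => Nat.cast_nonneg _) (Finset.mem_image_of_mem e hs)
  rw [Finset.card_image_of_injective F' e.symm.injective]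
  refine le_trans ?_ hF'.le
  refine le_trans ?_ h1
  rw [Nat.cast_le, ← Finset.card_image_of_injective _ e.injective]
  refine Finset.card_le_card ?_
  intro y hy
  obtain ⟨x, hx, rfl⟩ := Finset.mem_image.1 hy
  rw [Finset.mem_filter, Finset.mem_image] at hx
  obtain ⟨⟨x', hx', rfl⟩, hx2⟩ := hx
  rw [Finset.mem_filter, MulEquiv.apply_symm_apply]
  refine ⟨hx', fun h => hx2 ?_⟩
  rw [Finset.mem_image]
  refine ⟨e s * x', h, ?_⟩
  rw [map_mul, MulEquiv.symm_apply_apply]

/-- A group with an amenable subgroup that is everything is amenable. -/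
theorem Amenable.of_eq_top {Γ : Type*} [Group Γ] {C : Subgroup Γ} (h : Amenable C) (hC : C = ⊤) :
    Amenable Γ := by
  subst hC
  exact h.of_injective (Subgroup.topEquiv.symm : Γ ≃* (⊤ : Subgroup Γ)).toMonoidHom
    (Subgroup.topEquiv.symm : Γ ≃* (⊤ : Subgroup Γ)).injective

/-- Products of amenable groups are amenable. -/
theorem Amenable.prod {Γ Δ : Type*} [Group Γ] [Group Δ] (hΓ : Amenable Γ) (hΔ : Amenable Δ) :
    Amenable (Γ × Δ) := by
  intro S ε hε
  obtain ⟨F₁, hF₁, h₁⟩ := hΓ (S.image Prod.fst) (ε / 2) (half_pos hε)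
  obtain ⟨F₂, hF₂, h₂⟩ := hΔ (S.image Prod.snd) (ε / 2) (half_pos hε)
  refine ⟨F₁ ×ˢ F₂, hF₁.product hF₂, fun s hs => ?_⟩
  have e₁ := h₁ s.1 (Finset.mem_image_of_mem _ hs)
  have e₂ := h₂ s.2 (Finset.mem_image_of_mem _ hs)
  have hsub : ((F₁ ×ˢ F₂).filter fun x => s * x ∉ F₁ ×ˢ F₂)
      ⊆ ((F₁.filter fun x => s.1 * x ∉ F₁) ×ˢ F₂) ∪ (F₁ ×ˢ (F₂.filter fun x => s.2 * x ∉ F₂)) := by
    rintro ⟨x, y⟩ hxy
    rw [Finset.mem_filter, Finset.mem_product, Finset.mem_product] at hxy
    rw [Finset.mem_union, Finset.mem_product, Finset.mem_product, Finset.mem_filter,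
      Finset.mem_filter]
    obtain ⟨⟨hx, hy⟩, hn⟩ := hxy
    by_cases hx' : s.1 * x ∈ F₁
    · exact Or.inr ⟨hx, hy, fun hy' => hn ⟨hx', hy'⟩⟩
    · exact Or.inl ⟨⟨hx, hx'⟩, hy⟩
  have hcard := (Finset.card_le_card hsub).trans (Finset.card_union_le _ _)
  rw [Finset.card_product, Finset.card_product] at hcard
  have hcard' : ((((F₁ ×ˢ F₂).filter fun x => s * x ∉ F₁ ×ˢ F₂).card : ℕ) : ℝ)
      ≤ ((F₁.filter fun x => s.1 * x ∉ F₁).card : ℝ) * F₂.card
        + F₁.card * ((F₂.filter fun x => s.2 * x ∉ F₂).card : ℝ) := by exact_mod_cast hcard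
  rw [Finset.card_product, Nat.cast_mul]
  have c₁ : (0 : ℝ) ≤ F₁.card := Nat.cast_nonneg _
  have c₂ : (0 : ℝ) ≤ F₂.card := Nat.cast_nonneg _
  have m₁ := mul_le_mul_of_nonneg_right e₁ c₂
  have m₂ := mul_le_mul_of_nonneg_left e₂ c₁
  refine le_trans (le_of_eq ?_) (hcard'.trans (?_ : _ ≤ ε * (F₁.card * F₂.card)))
  · congr!
  · linarith

/-- The group `ℤ` is amenable. -/
theorem amenable_int : Amenable (Multiplicative ℤ) := by
  intro S ε hε
  obtain ⟨L, hL⟩ : ∃ L : ℕ, 0 < L ∧ ∀ s ∈ S, ((s.toAdd.natAbs : ℕ) : ℝ) ≤ ε * L := by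
    set M : ℕ := ∑ s ∈ S, s.toAdd.natAbs with hM
    obtain ⟨L, hL⟩ := exists_nat_ge ((M : ℝ) / ε)
    refine ⟨L + 1, Nat.succ_pos _, fun s hs => ?_⟩
    have h1 : ((s.toAdd.natAbs : ℕ) : ℝ) ≤ M := by
      exact_mod_cast Finset.single_le_sum (f := fun s : Multiplicative ℤ => s.toAdd.natAbs)
        (fun _ _ => Nat.zero_le _) hs
    rw [div_le_iff₀ hε] at hL
    push_cast
    nlinarith
  obtain ⟨hL0, hL⟩ := hL
  set F : Finset (Multiplicative ℤ) := (Finset.Ico (0 : ℤ) L).map Multiplicative.ofAdd.toEmbedding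
    with hF
  have hmem : ∀ x : Multiplicative ℤ, x ∈ F ↔ 0 ≤ x.toAdd ∧ x.toAdd < L := by
    intro x
    rw [hF, Finset.mem_map_equiv, Finset.mem_Ico]
    rfl
  have hcard : F.card = L := by rw [hF, Finset.card_map, Int.card_Ico]; simp
  refine ⟨F, by rw [← Finset.card_pos, hcard]; exact hL0, fun s hs => ?_⟩
  rw [hcard]
  refine le_trans ?_ (hL s hs)
  rw [Nat.cast_le]
  have hsub : (F.filter fun x => s * x ∉ F) ⊆
      ((Finset.Ico (0 : ℤ) L).filter fun x => ¬ (0 ≤ s.toAdd + x ∧ s.toAdd + x < L)).map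
        Multiplicative.ofAdd.toEmbedding := by
    intro x hx
    rw [Finset.mem_filter, hmem, hmem, toAdd_mul] at hx
    rw [Finset.mem_map_equiv, Finset.mem_filter, Finset.mem_Ico]
    exact hx
  refine le_trans (le_of_eq ?_) ((Finset.card_le_card hsub).trans ?_)
  · congr!
  rw [Finset.card_map]
  set k : ℤ := s.toAdd with hk
  rcases le_total 0 k with h0 | h0
  · have hsub2 : ((Finset.Ico (0 : ℤ) L).filter fun x => ¬ (0 ≤ k + x ∧ k + x < L))
        ⊆ Finset.Ico ((L : ℤ) - k) L := by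
      intro x hx
      rw [Finset.mem_filter, Finset.mem_Ico] at hx
      rw [Finset.mem_Ico]
      constructor
      · by_contra hlt
        exact hx.2 ⟨by omega, by omega⟩
      · exact hx.1.2
    refine (Finset.card_le_card hsub2).trans ?_
    rw [Int.card_Ico]
    omega
  · have hsub2 : ((Finset.Ico (0 : ℤ) L).filter fun x => ¬ (0 ≤ k + x ∧ k + x < L))
        ⊆ Finset.Ico 0 (-k) := by
      intro x hx
      rw [Finset.mem_filter, Finset.mem_Ico] at hx
      rw [Finset.mem_Ico]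
      constructor
      · exact hx.1.1
      · by_contra hlt
        exact hx.2 ⟨by omega, by omega⟩
    refine (Finset.card_le_card hsub2).trans ?_
    rw [Int.card_Ico]
    omega

end Pool.Agent.SpecFlow
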