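import Pool.Agent.SpecFlow.Prod

/-!
Helper file for MP_a51306_an: groups with a central element of infinite order in the abelianisation.
-/

set_option autoImplicit false
open Filter Topology
open scoped Classical Pointwise

namespace Pool.Agent.SpecFlow

/-- The group `G` is residually finite. -/
def ResFin (G : Type) [Group G] : Prop :=
  ∀ g : G, g ≠ 1 → ∃ (F : Type) (_ : Group F) (_ : Finite F) (f : G →* F), f g ≠ 1

/-- Residually finite groups are locally embeddable in finite groups. -/
theorem ResFin.lef {Q : Type} [Group Q] (h : ResFin Q) : Lef Q := by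
  intro B
  have h1 : ∀ p : Q × Q, ∃ (F : Type) (_ : Group F) (_ : Finite F) (f : Q →* F),
      p.1 ≠ p.2 → f p.1 ≠ f p.2 := by
    intro p
    by_cases hp : p.1 = p.2
    · exact ⟨Unit, inferInstance, inferInstance, 1, fun h => absurd hp h⟩
    · obtain ⟨F, i1, i2, f, hf⟩ := h (p.1⁻¹ * p.2) (fun h => hp (inv_mul_eq_one.1 h))
      refine ⟨F, i1, i2, f, fun _ heq => hf ?_⟩
      rw [map_mul, map_inv, heq, inv_mul_cancel]
  choose F i1 i2 f hf using h1
  refine ⟨∀ p : ↥(B ×ˢ B), F p, inferInstance, inferInstance,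
    fun g p => f p g, ?_, ?_⟩
  · intro a ha b hb hab
    by_contra hne
    have := congrFun hab ⟨(a, b), Finset.mem_product.2 ⟨ha, hb⟩⟩
    exact hf (a, b) hne this
  · intro a _ b _
    funext p
    exact map_mul _ _ _

/-- The quotient of a residually finite group by a central element which is not torsion in the
abelianisation is residually finite. -/
theorem ResFin.quot {G : Type} [Group G] (hG : ResFin G) (z : G) (hz : ∀ g, g * z = z * g)
    (χ : G →* Multiplicative ℤ) (hχ : χ z ≠ 1) [(Subgroup.zpowers z).Normal] :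
    ResFin (G ⧸ Subgroup.zpowers z) := by
  intro x hx
  obtain ⟨b, rfl⟩ := QuotientGroup.mk_surjective x
  have hb : b ∉ Subgroup.zpowers z := fun h => hx ((QuotientGroup.eq_one_iff b).2 h)
  set N : ℤ := (χ z).toAdd with hN
  have hN0 : N ≠ 0 := fun h => hχ (Multiplicative.toAdd.injective h)
  have hχz : ∀ j : ℤ, (χ (z ^ j)).toAdd = j * N := fun j => by
    rw [map_zpow, toAdd_zpow, smul_eq_mul]
  obtain ⟨F, iF, iFin, α, hα⟩ : ∃ (F : Type) (_ : Group F) (_ : Finite F) (α : G →* F),
      ∀ j : ℤ, α b = α z ^ j → ¬ (N * Nat.card F ∣ (χ b).toAdd - j * N) := by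
    by_cases hdiv : N ∣ (χ b).toAdd
    · obtain ⟨k, hk⟩ := hdiv
      have hc : b * (z ^ k)⁻¹ ≠ 1 := fun h => hb ⟨k, (mul_inv_eq_one.1 h).symm⟩
      obtain ⟨F, iF, iFin, α, hα⟩ := hG _ hc
      refine ⟨F, iF, iFin, α, fun j hj hdvd => hα ?_⟩
      rw [hk, mul_comm j N, ← mul_sub] at hdvd
      obtain ⟨l, hl⟩ := (mul_dvd_mul_iff_left hN0).1 hdvd
      have h1 : α z ^ (k - j) = 1 := by
        rw [hl, zpow_mul, zpow_natCast, pow_card_eq_one', one_zpow]
      rw [map_mul, map_inv, map_zpow, hj, ← zpow_neg, ← zpow_add]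
      have h2 : j + -k = -(k - j) := by ring
      rw [h2, zpow_neg, h1, inv_one]
    · refine ⟨Unit, inferInstance, inferInstance, 1, fun j _ hdvd => hdiv ?_⟩
      rw [Nat.card_unique, Nat.cast_one, mul_one] at hdvd
      have h1 := dvd_add hdvd (Dvd.intro_left j rfl : N ∣ j * N)
      rwa [sub_add_cancel] at h1
  have hM : 0 < Nat.card F := Nat.card_pos
  set L : ℕ := (N * Nat.card F).natAbs with hL
  have hL0 : L ≠ 0 := by
    rw [hL, Ne, Int.natAbs_eq_zero, mul_eq_zero, not_or]
    exact ⟨hN0, by exact_mod_cast hM.ne'⟩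
  have : NeZero L := ⟨hL0⟩
  set χL : G →* Multiplicative (ZMod L) :=
    (AddMonoidHom.toMultiplicative (Int.castAddHom (ZMod L))).comp χ with hχL
  have hχL' : ∀ g, (χL g).toAdd = (((χ g).toAdd : ℤ) : ZMod L) := fun g => rfl
  set β : G →* F × Multiplicative (ZMod L) := α.prod χL with hβ
  set H : Subgroup G := (Subgroup.zpowers (β z)).comap β with hH
  have hbH : b ∉ H := by
    rw [hH, Subgroup.mem_comap]
    rintro ⟨j, hj⟩
    have hj' : β z ^ j = β b := hj
    have h1 : α z ^ j = α b := congrArg Prod.fst hj'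
    have h2 : χL z ^ j = χL b := congrArg Prod.snd hj'
    refine hα j h1.symm ?_
    have h3 : (χL z ^ j).toAdd = (χL b).toAdd := by rw [h2]
    rw [toAdd_zpow, hχL', hχL', zsmul_eq_mul] at h3
    have h4 : (((χ b).toAdd - j * N : ℤ) : ZMod L) = 0 := by
      push_cast
      rw [← h3, hN]
      ring
    rw [ZMod.intCast_zmod_eq_zero_iff_dvd] at h4
    rw [hL] at h4
    exact Int.natAbs_dvd.1 h4
  have hnorm : H.Normal := by
    refine ⟨fun h hh g => ?_⟩
    rw [hH, Subgroup.mem_comap] at hh ⊢
    obtain ⟨j, hj⟩ := hh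
    have hj' : β z ^ j = β h := hj
    refine ⟨j, ?_⟩
    show β z ^ j = β (g * h * g⁻¹)
    rw [map_mul, map_mul, ← hj', ← map_zpow, ← map_mul, ← map_mul]
    congr 1
    have hc : Commute g z := hz g
    have := (hc.zpow_right j).eq
    rw [this, mul_inv_cancel_right]
  have hfin : Finite (G ⧸ H) := by
    have h1 : Finite (G ⧸ β.ker) := Finite.of_injective _ (QuotientGroup.kerLift_injective β)
    have h2 : β.ker ≤ H := by
      intro g hg
      rw [hH, Subgroup.mem_comap, MonoidHom.mem_ker.1 hg]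
      exact Subgroup.one_mem _
    have h3 : β.ker.FiniteIndex := Subgroup.finiteIndex_of_finite_quotient
    have h4 : H.FiniteIndex := Subgroup.finiteIndex_of_le h2
    exact Subgroup.finite_quotient_of_finiteIndex
  have hle : Subgroup.zpowers z ≤ H.comap (MonoidHom.id G) := by
    rw [Subgroup.comap_id, Subgroup.zpowers_le, hH, Subgroup.mem_comap]
    exact Subgroup.mem_zpowers _
  refine ⟨G ⧸ H, inferInstance, hfin, QuotientGroup.map _ H (MonoidHom.id G) hle, ?_⟩
  rw [QuotientGroup.map_mk, MonoidHom.id_apply]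
  intro h
  exact hbH ((QuotientGroup.eq_one_iff b).1 h)

/-- **Central elements.** -/
theorem amenable_of_central {G : Type} [Group G] [Countable G] (hG : ResFin G) (z : G)
    (hz : ∀ g, g * z = z * g) (χ : G →* Multiplicative ℤ) (hχ : χ z ≠ 1) (h : MatStable G) :
    Amenable G := by
  have hnorm : (Subgroup.zpowers z).Normal := by
    refine ⟨fun x hx g => ?_⟩
    obtain ⟨j, rfl⟩ := hx
    have hc : Commute g z := hz g
    show g * z ^ j * g⁻¹ ∈ _
    rw [(hc.zpow_right j).eq, mul_inv_cancel_right]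
    exact ⟨j, rfl⟩
  set q : G →* G ⧸ Subgroup.zpowers z := QuotientGroup.mk' _ with hq
  have hqz : q z = 1 := (QuotientGroup.eq_one_iff z).2 (Subgroup.mem_zpowers z)
  have hf : Flows G z := by
    refine flows_of_character (⊤ : Subgroup G)
      ((AddMonoidHom.toMultiplicative (Int.castAddHom ℝ)).comp (χ.comp (⊤ : Subgroup G).subtype))
      z (Subgroup.mem_top z) ?_
    intro h1
    apply hχ
    have h2 : (((χ z).toAdd : ℤ) : ℝ) = 0 := congrArg Multiplicative.toAdd h1
    apply Multiplicative.toAdd.injective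
    exact_mod_cast h2
  have hQ : Amenable (G ⧸ Subgroup.zpowers z) := by
    refine (amenable_of_flows h (hG.quot z hz χ hχ).lef q z hqz hf).of_eq_top ?_
    rw [eq_top_iff]
    intro x _
    obtain ⟨g, rfl⟩ := QuotientGroup.mk_surjective x
    refine ⟨g, ?_, rfl⟩
    rw [SetLike.mem_coe, Subgroup.mem_centralizer_singleton_iff]
    exact hz g
  refine (hQ.prod amenable_int).of_injective (q.prod χ) ?_
  rw [injective_iff_map_eq_one]
  intro g hg
  have h1 : q g = 1 := congrArg Prod.fst hg
  have h2 : χ g = 1 := congrArg Prod.snd hg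
  obtain ⟨j, rfl⟩ := (QuotientGroup.eq_one_iff g).1 h1
  have h3 : χ (z ^ j) = 1 := h2
  have h4 : j * (χ z).toAdd = 0 := by
    have := congrArg Multiplicative.toAdd h3
    rw [map_zpow, toAdd_zpow, smul_eq_mul] at this
    exact this
  have h5 : j = 0 := by
    rcases mul_eq_zero.1 h4 with h | h
    · exact h
    · exact absurd (Multiplicative.toAdd.injective h) hχ
  show z ^ j = 1
  rw [h5, zpow_zero]

end Pool.Agent.SpecFlow
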