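import Pool.Agent.SpecFlow.MFGroup

/-!
Helper file for MP_a51306_an: MF groups with a central element of infinite order in the
abelianisation.
-/

set_option autoImplicit false
open Filter Topology
open scoped Classical

namespace Pool.Agent.SpecFlow

lemma zpowers_normal {G : Type*} [Group G] (z : G) (hz : ∀ g, g * z = z * g) :
    (Subgroup.zpowers z).Normal := by
  refine ⟨fun x hx g => ?_⟩
  obtain ⟨j, rfl⟩ := hx
  have hc : Commute g z := hz g
  show g * z ^ j * g⁻¹ ∈ _
  rw [(hc.zpow_right j).eq, mul_inv_cancel_right]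
  exact ⟨j, rfl⟩

/-- The quotient of a locally residually finite group by a central element of infinite order in the
abelianisation is locally embeddable in finite groups. -/
theorem lef_quot {G : Type} [Group G] (hG : ∀ H : Subgroup G, H.FG → ResFin H) (z : G)
    (hz : ∀ g, g * z = z * g) (χ : G →* Multiplicative ℝ) (hχ : χ z ≠ 1)
    [(Subgroup.zpowers z).Normal] : Lef (G ⧸ Subgroup.zpowers z) := by
  intro B
  set H : Subgroup G := Subgroup.closure ((insert z (B.image fun x => x.out) : Finset G) : Set G)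
    with hH
  have hHfg : H.FG := ⟨_, rfl⟩
  have hzH : z ∈ H := Subgroup.subset_closure (Finset.mem_coe.2 (Finset.mem_insert_self _ _))
  have hBH : ∀ x ∈ B, x.out ∈ H := fun x hx => Subgroup.subset_closure (Finset.mem_coe.2
    (Finset.mem_insert_of_mem (Finset.mem_image_of_mem _ hx)))
  set z' : H := ⟨z, hzH⟩ with hz'
  have hz'c : ∀ g : H, g * z' = z' * g := fun g => Subtype.ext (hz g)
  have hn : (Subgroup.zpowers z').Normal := zpowers_normal z' hz'c
  have hfg : Group.FG H := (Group.fg_iff_subgroup_fg H).2 hHfg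
  obtain ⟨χ', hχ'⟩ := exists_int_char (χ.comp H.subtype) z' hχ
  have hlef : Lef (H ⧸ Subgroup.zpowers z') := ((hG H hHfg).quot z' hz'c χ' hχ').lef
  obtain ⟨B', hB'⟩ : ∃ B' : Finset (H ⧸ Subgroup.zpowers z'), ∀ (x : G ⧸ Subgroup.zpowers z)
      (hx : x ∈ B), ((⟨x.out, hBH x hx⟩ : H) : H ⧸ Subgroup.zpowers z') ∈ B' :=
    ⟨B.attach.image (fun x => ((⟨x.1.out, hBH x.1 x.2⟩ : H) : H ⧸ Subgroup.zpowers z')),
      fun x hx => Finset.mem_image.2 ⟨⟨x, hx⟩, Finset.mem_attach _ _, rfl⟩⟩
  obtain ⟨X, iX, fX, i, hi1, hi2⟩ := hlef B'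
  -- comparison of cosets
  have hcmp : ∀ g h : H, ((g : H ⧸ Subgroup.zpowers z') = h ↔
      ((g : G) : G ⧸ Subgroup.zpowers z) = ((h : G) : G ⧸ Subgroup.zpowers z)) := by
    intro g h
    rw [QuotientGroup.eq, QuotientGroup.eq]
    constructor
    · rintro ⟨j, hj⟩
      refine ⟨j, ?_⟩
      have := congrArg (fun x : H => (x : G)) hj
      exact this
    · rintro ⟨j, hj⟩
      refine ⟨j, ?_⟩
      exact Subtype.ext hj
  have hout : ∀ x : G ⧸ Subgroup.zpowers z, ((x.out : G) : G ⧸ Subgroup.zpowers z) = x := fun x =>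
    QuotientGroup.out_eq' x
  refine ⟨X, iX, fX, fun x => if hx : x.out ∈ H then
    i ((⟨x.out, hx⟩ : H) : H ⧸ Subgroup.zpowers z') else 1, ?_, ?_⟩
  · intro a ha b hb hab
    simp only [dif_pos (hBH a ha), dif_pos (hBH b hb)] at hab
    have h1 := hi1 _ (hB' a ha) _ (hB' b hb) hab
    rw [hcmp] at h1
    simp only [hout] at h1
    exact h1
  · intro a ha b hb
    have hab : (a * b).out ∈ H := by
      have h1 : (((a * b).out : G) : G ⧸ Subgroup.zpowers z)
          = ((a.out * b.out : G) : G ⧸ Subgroup.zpowers z) := by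
        rw [QuotientGroup.mk_mul, hout, hout, hout]
      rw [QuotientGroup.eq] at h1
      obtain ⟨j, hj⟩ := h1
      have hj' : z ^ j = ((a * b).out)⁻¹ * (a.out * b.out) := hj
      have h2 : (a * b).out = (a.out * b.out) * (z ^ j)⁻¹ := by
        rw [hj']; group
      rw [h2]
      exact H.mul_mem (H.mul_mem (hBH a ha) (hBH b hb)) (H.inv_mem (H.zpow_mem hzH j))
    simp only [dif_pos (hBH a ha), dif_pos (hBH b hb), dif_pos hab]
    rw [← hi2 _ (hB' a ha) _ (hB' b hb)]
    congr 1
    rw [← QuotientGroup.mk_mul, hcmp]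
    show (((a * b).out : G) : G ⧸ Subgroup.zpowers z)
          = ((a.out * b.out : G) : G ⧸ Subgroup.zpowers z)
    rw [QuotientGroup.mk_mul, hout, hout, hout]

/-- The group `G` is locally residually finite. -/
def LocResFin (G : Type) [Group G] : Prop := ∀ H : Subgroup G, H.FG → ResFin H

/-- **Central elements.** -/
theorem amenable_of_central_loc {G : Type} [Group G] [Countable G] (hG : LocResFin G ∨ MF G) (z : G)
    (hz : ∀ g, g * z = z * g) (χ : G →* Multiplicative ℝ) (hχ : χ z ≠ 1) (h : MatStable G) :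
    Amenable G := by
  have hnorm : (Subgroup.zpowers z).Normal := zpowers_normal z hz
  have hres : ∀ H : Subgroup G, H.FG → ResFin H := by
    rcases hG with h1 | h1
    · exact h1
    · exact fun H hH => h1.resFin h H hH
  set q : G →* G ⧸ Subgroup.zpowers z := QuotientGroup.mk' _ with hq
  have hqz : q z = 1 := (QuotientGroup.eq_one_iff z).2 (Subgroup.mem_zpowers z)
  have hf : Flows G z :=
    flows_of_character (⊤ : Subgroup G) (χ.comp (⊤ : Subgroup G).subtype) z (Subgroup.mem_top z) hχ
  have hQ : Amenable (G ⧸ Subgroup.zpowers z) := by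
    refine (amenable_of_flows h (lef_quot hres z hz χ hχ) q z hqz hf).of_eq_top ?_
    rw [eq_top_iff]
    intro x _
    obtain ⟨g, rfl⟩ := QuotientGroup.mk_surjective x
    refine ⟨g, ?_, rfl⟩
    rw [SetLike.mem_coe, Subgroup.mem_centralizer_singleton_iff]
    exact hz g
  refine amenable_of_local fun H hH => ?_
  set H' : Subgroup G := H ⊔ Subgroup.zpowers z with hH'
  have hzH' : z ∈ H' := (le_sup_right : Subgroup.zpowers z ≤ H') (Subgroup.mem_zpowers z)
  have hH'fg : H'.FG := hH.sup ⟨{z}, by rw [Finset.coe_singleton, Subgroup.zpowers_eq_closure]⟩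
  have hfg : Group.FG H' := (Group.fg_iff_subgroup_fg H').2 hH'fg
  obtain ⟨χ', hχ'⟩ := exists_int_char (χ.comp H'.subtype) (⟨z, hzH'⟩ : H') hχ
  have hH'am : Amenable H' := by
    refine (hQ.prod amenable_int).of_injective ((q.comp H'.subtype).prod χ') ?_
    rw [injective_iff_map_eq_one]
    intro g hg
    have h1 : q (g : G) = 1 := congrArg Prod.fst hg
    have h2 : χ' g = 1 := congrArg Prod.snd hg
    obtain ⟨j, hj⟩ := (QuotientGroup.eq_one_iff (g : G)).1 h1
    have hj' : g = (⟨z, hzH'⟩ : H') ^ j := Subtype.ext hj.symm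
    rw [hj', map_zpow] at h2
    have h4 : j * (χ' ⟨z, hzH'⟩).toAdd = 0 := by
      have := congrArg Multiplicative.toAdd h2
      rw [toAdd_zpow, smul_eq_mul] at this
      exact this
    have h5 : j = 0 := by
      rcases mul_eq_zero.1 h4 with h | h
      · exact h
      · exact absurd (Multiplicative.toAdd.injective h) hχ'
    rw [hj', h5, zpow_zero]
  exact hH'am.of_injective (Subgroup.inclusion (le_sup_left : H ≤ H'))
    (Subgroup.inclusion_injective _)

end Pool.Agent.SpecFlow
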