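import Pool.Agent.SpecFlow.Main

/-!
Helper file for MP_a51306_an: the main theorem for paths of unitary matrix representations.
-/

set_option autoImplicit false
open Filter Topology
open scoped Classical Pointwise

namespace Pool.Agent.SpecFlow

/-- The spectrum of `z` moves along some continuous path of unitary matrix representations of
`G`. -/
def Flows (G : Type) [Group G] (z : G) : Prop :=
  ∃ (m : ℕ) (π : ℝ → G →* Matrix.unitaryGroup (Fin m) ℂ),
    (∀ g : G, Continuous fun t : ℝ => (π t g).val) ∧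
      ∃ s t : ℝ, spectrum ℂ (π s z).val ≠ spectrum ℂ (π t z).val

/-- A unitary matrix as an isometry. -/
noncomputable def isoU (m : ℕ) :
    Matrix.unitaryGroup (Fin m) ℂ ≃* (EuclideanSpace ℂ (Fin m) ≃ₗᵢ[ℂ] EuclideanSpace ℂ (Fin m)) :=
  (toU (EuclideanSpace.basisFun (Fin m) ℂ)).symm

lemma isoU_val {m : ℕ} (M : Matrix.unitaryGroup (Fin m) ℂ) :
    (((isoU m M : EuclideanSpace ℂ (Fin m) ≃ₗᵢ[ℂ] EuclideanSpace ℂ (Fin m)) :
      EuclideanSpace ℂ (Fin m) ≃L[ℂ] EuclideanSpace ℂ (Fin m)) :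
      EuclideanSpace ℂ (Fin m) →L[ℂ] EuclideanSpace ℂ (Fin m))
      = Matrix.toEuclideanCLM (𝕜 := ℂ) M.val := by
  obtain ⟨u, rfl⟩ := (toU (EuclideanSpace.basisFun (Fin m) ℂ)).surjective M
  rw [isoU, MulEquiv.symm_apply_apply, toU_val, toEuclideanCLM_toM]
  rfl

lemma isoU_apply {m : ℕ} (M : Matrix.unitaryGroup (Fin m) ℂ) (v : EuclideanSpace ℂ (Fin m)) :
    isoU m M v = Matrix.toEuclideanLin M.val v := by
  have := congrArg (fun T : EuclideanSpace ℂ (Fin m) →L[ℂ] EuclideanSpace ℂ (Fin m) => T v)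
    (isoU_val M)
  exact this

lemma mem_spectrum_iff {m : ℕ} (M : Matrix.unitaryGroup (Fin m) ℂ) (lam : ℂ) :
    lam ∈ spectrum ℂ M.val ↔ ∃ v : EuclideanSpace ℂ (Fin m), v ≠ 0 ∧ isoU m M v = lam • v := by
  rw [← Matrix.spectrum_toLpLin 2, ← Module.End.hasEigenvalue_iff_mem_spectrum]
  constructor
  · intro h
    obtain ⟨v, hv⟩ := h.exists_hasEigenvector
    exact ⟨v, hv.2, by rw [isoU_apply]; exact hv.apply_eq_smul⟩
  · rintro ⟨v, hv, hvl⟩
    refine Module.End.hasEigenvalue_of_hasEigenvector (x := v) ⟨?_, hv⟩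
    rw [Module.End.mem_eigenspace_iff, ← isoU_apply]
    exact hvl

/-- **Main theorem.** -/
theorem amenable_of_flows {G Q : Type} [Group G] [Countable G] [Group Q] (hG : MatStable G)
    (hQ : Lef Q) (q : G →* Q) (z : G) (hz : q z = 1) (hf : Flows G z) :
    Amenable ((Subgroup.centralizer {z}).map q) := by
  obtain ⟨m, π, hπ, hst⟩ := hf
  obtain ⟨s, t, lam, hs, ht⟩ : ∃ (s t : ℝ) (lam : ℂ), lam ∈ spectrum ℂ (π s z).val ∧
      lam ∉ spectrum ℂ (π t z).val := by
    obtain ⟨s, t, hne⟩ := hst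
    by_contra hcon
    push Not at hcon
    exact hne (Set.Subset.antisymm (fun lam h => hcon s t lam h) (fun lam h => hcon t s lam h))
  obtain ⟨v, hv, hvl⟩ := (mem_spectrum_iff _ _).1 hs
  set γ : ℝ → ℝ := fun u => s + u * (t - s) with hγ
  set P : ℝ → G →* (EuclideanSpace ℂ (Fin m) ≃ₗᵢ[ℂ] EuclideanSpace ℂ (Fin m)) :=
    fun u => ((isoU m : _ ≃* _) : _ →* _).comp (π (γ u)) with hP
  have hPval : ∀ u g, P u g = isoU m (π (γ u) g) := fun u g => rfl
  have hv' : ‖v‖ ≠ 0 := norm_ne_zero_iff.2 hv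
  refine amenable_of_path hG hQ q z hz P ?_ lam ((‖v‖⁻¹ : ℂ) • v) ?_ ?_ ?_
  · intro g
    have h1 : Continuous fun M : Matrix (Fin m) (Fin m) ℂ => Matrix.toEuclideanCLM (𝕜 := ℂ) M :=
      LinearMap.continuous_of_finiteDimensional
        ((Matrix.toEuclideanCLM (n := Fin m) (𝕜 := ℂ)).toAlgEquiv.toLinearMap)
    have h2 : Continuous γ := by rw [hγ]; fun_prop
    have h3 := h1.comp ((hπ g).comp h2)
    refine h3.congr fun u => ?_
    rw [hPval, isoU_val]
    rfl
  · rw [norm_smul, norm_inv, Complex.norm_real, norm_norm, inv_mul_cancel₀ hv']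
  · rw [hPval, map_smul]
    have h1 : γ 0 = s := by simp [hγ]
    rw [h1, hvl, smul_comm]
  · intro w hw
    by_contra hw0
    apply ht
    rw [mem_spectrum_iff]
    refine ⟨w, hw0, ?_⟩
    have h1 : γ 1 = t := by simp [hγ]
    rw [hPval, h1] at hw
    exact hw

end Pool.Agent.SpecFlow
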