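import Mathlib

/-!
Helper file for MP_a51306_an: amenability (Følner), the layer cake argument and the passage to a
subgroup.
-/

set_option autoImplicit false
open Filter Topology
open scoped Classical

namespace Pool.Agent.SpecFlow

/-- The group `Γ` is amenable (Følner's condition): for every finite set `S` and every `ε > 0` there
is a nonempty finite set `F` such that for every `s ∈ S` at most `ε |F|` elements `x` of `F` have
`s x ∉ F`. -/
def Amenable (Γ : Type*) [Group Γ] : Prop :=
  ∀ (S : Finset Γ) (ε : ℝ), 0 < ε → ∃ F : Finset Γ, F.Nonempty ∧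
    ∀ s ∈ S, (((F.filter fun x => s * x ∉ F).card : ℕ) : ℝ) ≤ ε * F.card

/-- Layer cake. -/
lemma layer {Y T : Type*} (W : Finset Y) (S : Finset T) (σ : T → Y → Y) (δ : ℝ) (n : ℕ) :
    ∀ ν : Y → ℝ, (∀ y, 0 ≤ ν y) → (∀ y, y ∉ W → ν y = 0) →
      (W.filter fun y => ν y ≠ 0).card ≤ n →
      ∑ s ∈ S, ∑ y ∈ W, |ν (σ s y) - ν y| < δ * ∑ y ∈ W, ν y →
      ∃ F : Finset Y, F ⊆ W ∧ F.Nonempty ∧
        ∑ s ∈ S, (((W.filter fun y => ¬ (σ s y ∈ F ↔ y ∈ F)).card : ℕ) : ℝ) < δ * F.card := by
  induction n with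
  | zero =>
    intro ν h0 hW hcard hlt
    exfalso
    have h1 : ∀ y ∈ W, ν y = 0 := by
      intro y hy
      by_contra hne
      have : y ∈ W.filter fun y => ν y ≠ 0 := Finset.mem_filter.2 ⟨hy, hne⟩
      rw [Finset.card_eq_zero.1 (Nat.le_zero.1 hcard)] at this
      exact absurd this (Finset.notMem_empty y)
    rw [Finset.sum_eq_zero h1, mul_zero] at hlt
    exact absurd hlt (not_lt.2 (Finset.sum_nonneg fun s _ => Finset.sum_nonneg fun y _ =>
      abs_nonneg _))
  | succ n ih =>
    intro ν h0 hW hcard hlt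
    set F := W.filter fun y => ν y ≠ 0 with hF
    have hmem : ∀ y, y ∈ F ↔ ν y ≠ 0 := by
      intro y
      rw [hF, Finset.mem_filter]
      constructor
      · exact fun h => h.2
      · intro h
        refine ⟨?_, h⟩
        by_contra hy
        exact h (hW y hy)
    rcases F.eq_empty_or_nonempty with hemp | hne
    · exact ih ν h0 hW (by rw [← hF, hemp]; simp) hlt
    by_cases hgood : ∑ s ∈ S, (((W.filter fun y => ¬ (σ s y ∈ F ↔ y ∈ F)).card : ℕ) : ℝ)
        < δ * F.card
    · exact ⟨F, Finset.filter_subset _ _, hne, hgood⟩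
    rw [not_lt] at hgood
    obtain ⟨y0, hy0, hmin⟩ := Finset.exists_min_image F ν hne
    set a := ν y0 with ha
    have ha0 : 0 < a := lt_of_le_of_ne (h0 y0) (Ne.symm ((hmem y0).1 hy0))
    set ν' : Y → ℝ := fun y => if y ∈ F then ν y - a else 0 with hν'
    have hv1 : ∀ y, y ∈ F → ν' y = ν y - a := fun y hy => by simp only [hν', if_pos hy]
    have hv2 : ∀ y, y ∉ F → ν' y = 0 := fun y hy => by simp only [hν', if_neg hy]
    have hv3 : ∀ y, y ∉ F → ν y = 0 := fun y hy => by
      by_contra h; exact hy ((hmem y).2 h)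
    have hab : ∀ u y, |ν u - ν y| = |ν' u - ν' y| + a * (if ¬ (u ∈ F ↔ y ∈ F) then 1 else 0) := by
      intro u y
      by_cases hu : u ∈ F <;> by_cases hy : y ∈ F
      · rw [if_neg (by tauto), hv1 u hu, hv1 y hy, mul_zero, add_zero, sub_sub_sub_cancel_right]
      · rw [if_pos (by tauto), hv1 u hu, hv2 y hy, hv3 y hy, sub_zero, sub_zero,
          abs_of_nonneg (h0 u), abs_of_nonneg (sub_nonneg.2 (hmin u hu))]
        ring
      · rw [if_pos (by tauto), hv2 u hu, hv1 y hy, hv3 u hu, zero_sub, zero_sub, abs_neg, abs_neg,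
          abs_of_nonneg (h0 y), abs_of_nonneg (sub_nonneg.2 (hmin y hy))]
        ring
      · rw [if_neg (by tauto), hv2 u hu, hv2 y hy, hv3 u hu, hv3 y hy]
        simp
    have hsum : ∀ s, ∑ y ∈ W, |ν (σ s y) - ν y| = ∑ y ∈ W, |ν' (σ s y) - ν' y|
        + a * (((W.filter fun y => ¬ (σ s y ∈ F ↔ y ∈ F)).card : ℕ) : ℝ) := by
      intro s
      rw [Finset.sum_congr rfl fun y _ => hab (σ s y) y, Finset.sum_add_distrib, ← Finset.mul_sum,
        Finset.sum_boole]
    have hsum2 : ∑ y ∈ W, ν y = ∑ y ∈ W, ν' y + a * F.card := by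
      have h1 : ∀ y ∈ W, ν y = ν' y + a * (if y ∈ F then 1 else 0) := by
        intro y _
        by_cases hy : y ∈ F
        · rw [if_pos hy, hv1 y hy]; ring
        · rw [if_neg hy, hv2 y hy, hv3 y hy]; ring
      have hFW : W.filter (fun y => y ∈ F) = F := by
        ext y
        rw [Finset.mem_filter]
        constructor
        · exact fun h => h.2
        · exact fun h => ⟨(Finset.mem_filter.1 h).1, h⟩
      rw [Finset.sum_congr rfl h1, Finset.sum_add_distrib, ← Finset.mul_sum, Finset.sum_boole, hFW]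
    refine ih ν' ?_ ?_ ?_ ?_
    · intro y
      by_cases hy : y ∈ F
      · rw [hv1 y hy]; exact sub_nonneg.2 (hmin y hy)
      · rw [hv2 y hy]
    · intro y hy
      refine hv2 y fun h => hy ?_
      exact (Finset.mem_filter.1 h).1
    · have hsub : (W.filter fun y => ν' y ≠ 0) ⊆ F.erase y0 := by
        intro y hy
        rw [Finset.mem_filter] at hy
        rw [Finset.mem_erase]
        have hyF : y ∈ F := by
          by_contra h; exact hy.2 (hv2 y h)
        refine ⟨?_, hyF⟩
        rintro rfl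
        exact hy.2 (by rw [hv1 y hyF, ← ha, sub_self])
      have h2 := Finset.card_le_card hsub
      rw [Finset.card_erase_of_mem hy0] at h2
      omega
    · rw [hsum2, Finset.sum_congr rfl fun s _ => hsum s, Finset.sum_add_distrib,
        ← Finset.mul_sum] at hlt
      have h3 := mul_le_mul_of_nonneg_left hgood ha0.le
      nlinarith

/-- From sets in `Q` almost invariant under a subgroup `C` to Følner sets in `C`. -/
lemma coset {Q : Type*} [Group Q] (C : Subgroup Q) (S : Finset C) (W F : Finset Q) (hFW : F ⊆ W)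
    (δ : ℝ) (h : ∑ s ∈ S, (((W.filter fun y => ¬ ((s : Q) * y ∈ F ↔ y ∈ F)).card : ℕ) : ℝ)
      < δ * F.card) :
    ∃ F' : Finset C, F'.Nonempty ∧
      ∑ s ∈ S, (((F'.filter fun x => s * x ∉ F').card : ℕ) : ℝ) < δ * F'.card := by
  set κ : Q → Quotient (QuotientGroup.rightRel C) := fun y => Quotient.mk _ y with hκ
  have hκi : ∀ y y' : Q, κ y = κ y' ↔ y' * y⁻¹ ∈ C := by
    intro y y'
    rw [hκ]
    simp only
    rw [Quotient.eq, QuotientGroup.rightRel_apply]
  set I := W.image κ with hI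
  have hfib : ∀ V : Finset Q, V ⊆ W → ((V.card : ℕ) : ℝ)
      = ∑ k ∈ I, (((V.filter fun y => κ y = k).card : ℕ) : ℝ) := by
    intro V hV
    have := Finset.card_eq_sum_card_fiberwise (f := κ) (s := V) (t := I)
      (fun y hy => Finset.mem_coe.2 (Finset.mem_image_of_mem κ (hV hy)))
    exact_mod_cast this
  obtain ⟨k, hk, hlt⟩ : ∃ k ∈ I,
      ∑ s ∈ S, ((((W.filter fun y => ¬ ((s : Q) * y ∈ F ↔ y ∈ F)).filter
        fun y => κ y = k).card : ℕ) : ℝ) < δ * (F.filter fun y => κ y = k).card := by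
    by_contra hcon
    simp only [not_exists, not_and, not_lt] at hcon
    have h1 := Finset.sum_le_sum hcon
    rw [← Finset.mul_sum, ← hfib F hFW, Finset.sum_comm] at h1
    have h2 : ∀ s ∈ S, ∑ k ∈ I, ((((W.filter fun y => ¬ ((s : Q) * y ∈ F ↔ y ∈ F)).filter
        fun y => κ y = k).card : ℕ) : ℝ)
        = (((W.filter fun y => ¬ ((s : Q) * y ∈ F ↔ y ∈ F)).card : ℕ) : ℝ) := fun s _ =>
      (hfib _ (Finset.filter_subset _ _)).symm
    rw [Finset.sum_congr rfl h2] at h1
    exact absurd h (not_lt.2 h1)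
  have hne : (F.filter fun y => κ y = k).Nonempty := by
    rw [Finset.nonempty_iff_ne_empty]
    intro hemp
    rw [hemp, Finset.card_empty, Nat.cast_zero, mul_zero] at hlt
    exact absurd hlt (not_lt.2 (Finset.sum_nonneg fun _ _ => Nat.cast_nonneg _))
  obtain ⟨r, hr⟩ := hne
  rw [Finset.mem_filter] at hr
  have hinj : Function.Injective fun c : C => (c : Q) * r := fun a b hab =>
    Subtype.ext (mul_right_cancel hab)
  set F' : Finset C := F.preimage (fun c : C => (c : Q) * r) hinj.injOn with hF'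
  have hmem : ∀ c : C, c ∈ F' ↔ (c : Q) * r ∈ F := fun c => by rw [hF', Finset.mem_preimage]
  have hκr : ∀ c : C, κ ((c : Q) * r) = k := by
    intro c
    rw [← hr.2, hκi, mul_inv_rev, ← mul_assoc, mul_inv_cancel, one_mul]
    exact C.inv_mem c.2
  have hcard : F'.card = (F.filter fun y => κ y = k).card := by
    rw [← Finset.card_image_of_injective F' hinj]
    congr 1
    ext y
    rw [Finset.mem_image, Finset.mem_filter]
    constructor
    · rintro ⟨c, hc, rfl⟩
      exact ⟨(hmem c).1 hc, hκr c⟩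
    · rintro ⟨hy, hyk⟩
      have h1 : y * r⁻¹ ∈ C := by
        rw [← hκi, hr.2, hyk]
      refine ⟨⟨y * r⁻¹, h1⟩, ?_, by simp⟩
      rw [hmem]
      simpa using hy
  refine ⟨F', ?_, ?_⟩
  · rw [← Finset.card_pos, hcard, Finset.card_pos]
    exact ⟨r, Finset.mem_filter.2 hr⟩
  · rw [hcard]
    refine lt_of_le_of_lt (Finset.sum_le_sum fun s _ => ?_) hlt
    rw [Nat.cast_le, ← Finset.card_image_of_injective (F'.filter fun x => s * x ∉ F') hinj]
    refine Finset.card_le_card ?_
    intro y hy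
    rw [Finset.mem_image] at hy
    obtain ⟨c, hc, rfl⟩ := hy
    rw [Finset.mem_filter, hmem, hmem] at hc
    rw [Finset.mem_filter, Finset.mem_filter]
    refine ⟨⟨hFW hc.1, ?_⟩, hκr c⟩
    intro hiff
    have := hiff.2 hc.1
    apply hc.2
    rw [Subgroup.coe_mul, mul_assoc]
    exact this

end Pool.Agent.SpecFlow
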