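import Mathlib

/-!
Helper file for MP_a51306_an: an exhaustion of a countable group, local embeddings in finite groups,
and a slowly varying function on them.
-/

set_option autoImplicit false
open Filter Topology
open scoped Classical Pointwise

namespace Pool.Agent.SpecFlow

/-- The group `Q` is locally embeddable in finite groups (LEF): for every finite subset `B` of `Q`
there are a finite group `X` and a map `i : Q → X` which is injective on `B` and satisfies
`i (a b) = i a i b` for `a, b ∈ B`. -/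
def Lef (Q : Type) [Group Q] : Prop :=
  ∀ B : Finset Q, ∃ (X : Type) (_ : Group X) (_ : Finite X) (i : Q → X),
    (∀ a ∈ B, ∀ b ∈ B, i a = i b → a = b) ∧ ∀ a ∈ B, ∀ b ∈ B, i (a * b) = i a * i b

/-- A local embedding, as data. -/
structure LocEmb {Q : Type} [Group Q] (B : Finset Q) where
  /-- the finite group -/
  X : Type
  [grp : Group X]
  [fin : Fintype X]
  /-- the map -/
  i : Q → X
  inj : ∀ a ∈ B, ∀ b ∈ B, i a = i b → a = b
  mul : ∀ a ∈ B, ∀ b ∈ B, i (a * b) = i a * i b

attribute [instance] LocEmb.grp LocEmb.fin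

lemma Lef.exists_locEmb {Q : Type} [Group Q] (h : Lef Q) (B : Finset Q) :
    Nonempty (LocEmb B) := by
  obtain ⟨X, hX, hfin, i, h1, h2⟩ := h B
  have : Fintype X := Fintype.ofFinite X
  exact ⟨{ X := X, i := i, inj := h1, mul := h2 }⟩

section Exhaustion

variable {Q : Type} [Group Q] (a : ℕ → Q)

/-- The first elements of the group, their inverses and `1`. -/
noncomputable def gens (j : ℕ) : Finset Q :=
  insert 1 ((Finset.range j).image a ∪ (Finset.range j).image fun i => (a i)⁻¹)

/-- The exhaustion. -/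
noncomputable def ex : ℕ → Finset Q
  | 0 => {1}
  | j + 1 => gens a (j + 1) * ex j

lemma one_mem_gens (j : ℕ) : (1 : Q) ∈ gens a j := Finset.mem_insert_self _ _

lemma mem_gens {i j : ℕ} (h : i < j) : a i ∈ gens a j :=
  Finset.mem_insert_of_mem (Finset.mem_union_left _
    (Finset.mem_image_of_mem a (Finset.mem_range.2 h)))

lemma gens_mono {j k : ℕ} (h : j ≤ k) : gens a j ⊆ gens a k := by
  have h1 : Finset.range j ⊆ Finset.range k := Finset.range_subset_range.2 h
  exact Finset.insert_subset_insert _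
    (Finset.union_subset_union (Finset.image_subset_image h1) (Finset.image_subset_image h1))

lemma inv_mem_gens {j : ℕ} {s : Q} (hs : s ∈ gens a j) : s⁻¹ ∈ gens a j := by
  rw [gens, Finset.mem_insert, Finset.mem_union, Finset.mem_image, Finset.mem_image] at hs ⊢
  rcases hs with rfl | ⟨i, hi, rfl⟩ | ⟨i, hi, rfl⟩
  · exact Or.inl inv_one
  · exact Or.inr (Or.inr ⟨i, hi, rfl⟩)
  · exact Or.inr (Or.inl ⟨i, hi, (inv_inv _).symm⟩)

lemma ex_step {N j : ℕ} (h : N ≤ j + 1) {s y : Q} (hs : s ∈ gens a N) (hy : y ∈ ex a j) :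
    s * y ∈ ex a (j + 1) := by
  rw [ex]
  exact Finset.mul_mem_mul (gens_mono a h hs) hy

lemma ex_succ (j : ℕ) : ex a j ⊆ ex a (j + 1) := fun y hy => by
  have := ex_step a (le_refl (j + 1)) (one_mem_gens a (j + 1)) hy
  rwa [one_mul] at this

lemma ex_mono {j k : ℕ} (h : j ≤ k) : ex a j ⊆ ex a k := by
  induction h with
  | refl => exact Finset.Subset.refl _
  | step _ ih => exact ih.trans (ex_succ a _)

lemma one_mem_ex (j : ℕ) : (1 : Q) ∈ ex a j :=
  ex_mono a (Nat.zero_le j) (by rw [ex]; exact Finset.mem_singleton_self 1)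

lemma gens_subset_ex {N j : ℕ} (h : N ≤ j + 1) : gens a N ⊆ ex a (j + 1) := fun s hs => by
  have := ex_step a h hs (one_mem_ex a j)
  rwa [mul_one] at this

end Exhaustion

section Height

variable {Q : Type} [Group Q] (a : ℕ → Q) (N : ℕ) (e : LocEmb (ex a (2 * N + 1)))

/-- The image of the exhaustion. -/
noncomputable def img (j : ℕ) : Finset e.X := (ex a j).image e.i

/-- The number of `j ∈ [N, 2N)` such that the point is outside the image of the `j`-th set. -/
noncomputable def ht (x : e.X) : ℕ := ((Finset.Ico N (2 * N)).filter fun j => x ∉ img a N e j).card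

variable {a N}

lemma i_one : e.i 1 = 1 := by
  have h := e.mul 1 (one_mem_ex a _) 1 (one_mem_ex a _)
  rw [mul_one] at h
  exact (mul_eq_left (a := e.i 1)).1 h.symm

lemma i_mul {s y : Q} (hs : s ∈ gens a N) {j : ℕ} (hj : j ≤ 2 * N + 1) (hy : y ∈ ex a j) :
    e.i (s * y) = e.i s * e.i y :=
  e.mul s (gens_subset_ex a (by omega) hs) y (ex_mono a hj hy)

lemma i_inv {s : Q} (hs : s ∈ gens a N) : e.i s⁻¹ * e.i s = 1 := by
  rw [← i_mul e (inv_mem_gens a hs) (le_refl _) (gens_subset_ex a (by omega) hs), inv_mul_cancel,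
    i_one]

lemma mem_img_step {s : Q} (hs : s ∈ gens a N) {j : ℕ} (hN : N ≤ j + 1) (hj : j ≤ 2 * N) {x : e.X}
    (hx : x ∈ img a N e j) : e.i s * x ∈ img a N e (j + 1) := by
  rw [img, Finset.mem_image] at hx ⊢
  obtain ⟨y, hy, rfl⟩ := hx
  exact ⟨s * y, ex_step a hN hs hy, i_mul e hs (by omega) hy⟩

lemma ht_mul_le {s : Q} (hs : s ∈ gens a N) (x : e.X) : ht a N e (e.i s * x) ≤ ht a N e x + 1 := by
  have hsub : ((Finset.Ico N (2 * N)).filter fun j => e.i s * x ∉ img a N e j)
      ⊆ insert N (((Finset.Ico N (2 * N)).filter fun j => x ∉ img a N e j).image (· + 1)) := by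
    intro j hj
    rw [Finset.mem_filter, Finset.mem_Ico] at hj
    rw [Finset.mem_insert, Finset.mem_image]
    rcases Nat.eq_or_lt_of_le hj.1.1 with h | h
    · exact Or.inl h.symm
    · refine Or.inr ⟨j - 1, ?_, by omega⟩
      rw [Finset.mem_filter, Finset.mem_Ico]
      refine ⟨by omega, fun hx => hj.2 ?_⟩
      have := mem_img_step e hs (j := j - 1) (by omega) (by omega) hx
      rwa [Nat.sub_add_cancel (by omega : 1 ≤ j)] at this
  calc ht a N e (e.i s * x) ≤ _ := Finset.card_le_card hsub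
    _ ≤ _ := Finset.card_insert_le _ _
    _ ≤ ht a N e x + 1 := Nat.add_le_add_right Finset.card_image_le 1

lemma ht_le_mul {s : Q} (hs : s ∈ gens a N) (x : e.X) : ht a N e x ≤ ht a N e (e.i s * x) + 1 := by
  have h := ht_mul_le e (inv_mem_gens a hs) (e.i s * x)
  rwa [← mul_assoc, i_inv e hs, one_mul] at h

lemma ht_one : ht a N e 1 = 0 := by
  rw [ht, Finset.card_eq_zero, Finset.filter_eq_empty_iff]
  intro j _
  rw [not_not, img, Finset.mem_image]
  exact ⟨1, one_mem_ex a j, i_one e⟩

lemma ht_le (x : e.X) : ht a N e x ≤ N := by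
  refine (Finset.card_filter_le _ _).trans ?_
  rw [Nat.card_Ico]; omega

lemma ht_eq (hN : 1 ≤ N) {x : e.X} (hx : x ∉ img a N e (2 * N - 1)) : ht a N e x = N := by
  rw [ht, Finset.filter_true_of_mem]
  · rw [Nat.card_Ico]; omega
  · intro j hj hxj
    rw [Finset.mem_Ico] at hj
    apply hx
    rw [img, Finset.mem_image] at hxj ⊢
    obtain ⟨y, hy, rfl⟩ := hxj
    exact ⟨y, ex_mono a (by omega) hy, rfl⟩

/-- The slowly varying function. -/
noncomputable def slow (x : e.X) : ℝ := (ht a N e x : ℝ) / N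

lemma slow_mem (x : e.X) : slow e x ∈ Set.Icc (0 : ℝ) 1 := by
  unfold slow
  refine ⟨by positivity, div_le_one_of_le₀ ?_ (Nat.cast_nonneg _)⟩
  exact_mod_cast ht_le e x

lemma slow_one : slow e 1 = 0 := by
  unfold slow
  rw [ht_one, Nat.cast_zero, zero_div]

lemma slow_eq (hN : 1 ≤ N) {x : e.X} (hx : x ∉ img a N e (2 * N - 1)) : slow e x = 1 := by
  unfold slow
  rw [ht_eq e hN hx]
  exact div_self (by positivity)

lemma slow_lip {s : Q} (hs : s ∈ gens a N) (x : e.X) :
    |slow e (e.i s * x) - slow e x| ≤ 1 / N := by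
  unfold slow
  rw [← sub_div, abs_div, abs_of_nonneg (Nat.cast_nonneg N : (0 : ℝ) ≤ (N : ℝ))]
  refine div_le_div_of_nonneg_right ?_ (Nat.cast_nonneg _)
  have h1 : (ht a N e (e.i s * x) : ℝ) ≤ ht a N e x + 1 := by exact_mod_cast ht_mul_le e hs x
  have h2 : (ht a N e x : ℝ) ≤ ht a N e (e.i s * x) + 1 := by exact_mod_cast ht_le_mul e hs x
  rw [abs_le]
  constructor <;> linarith

end Height

end Pool.Agent.SpecFlow
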