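import Pool.Agent.SpecFlow.Malcev
import Pool.Agent.SpecFlow.Central

/-!
Helper file for MP_a51306_an: MF groups. A matricially stable MF group is locally residually finite,
so that local embeddability in finite groups can be replaced by the MF property.
-/

set_option autoImplicit false
open Filter Topology
open scoped Classical

namespace Pool.Agent.SpecFlow

/-- The group `Γ` is MF (matricial field): it has an asymptotic homomorphism to unitary matrices,
for the operator norm, for which no `g ≠ 1` is asymptotically trivial. -/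
def MF (Γ : Type) [Group Γ] : Prop :=
  ∃ (k : ℕ → ℕ) (φ : ∀ n : ℕ, Γ → Matrix.unitaryGroup (Fin (k n)) ℂ),
    (∀ g h : Γ, Tendsto (fun n : ℕ =>
      op ((φ n (g * h)).val - (φ n g).val * (φ n h).val)) atTop (𝓝 0)) ∧
    ∀ g : Γ, g ≠ 1 → ¬ Tendsto (fun n : ℕ => op ((φ n g).val - 1)) atTop (𝓝 0)

lemma MF.exists_rep {Γ : Type} [Group Γ] (h : MF Γ) (hs : MatStable Γ) (g : Γ) (hg : g ≠ 1) :
    ∃ (m : ℕ) (ρ : Γ →* Matrix.unitaryGroup (Fin m) ℂ), ρ g ≠ 1 := by
  obtain ⟨k, φ, hφ, hφg⟩ := h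
  obtain ⟨ρ, hρ⟩ := hs k φ hφ
  by_contra hcon
  push Not at hcon
  apply hφg g hg
  refine (hρ g).congr fun n => ?_
  rw [hcon (k n) (ρ n)]
  rfl

/-- Finitely generated subgroups of matricially stable MF groups are residually finite. -/
lemma MF.resFin {Γ : Type} [Group Γ] (h : MF Γ) (hs : MatStable Γ) (H : Subgroup Γ) (hH : H.FG) :
    ResFin H := by
  intro g hg
  have hg' : (g : Γ) ≠ 1 := fun h1 => hg (Subtype.ext h1)
  obtain ⟨m, ρ, hρ⟩ := h.exists_rep hs (g : Γ) hg'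
  have hfg : Group.FG H := (Group.fg_iff_subgroup_fg H).2 hH
  obtain ⟨S, hS⟩ := hfg.out
  exact malcev S hS (ρ.comp H.subtype) g hρ

/-- Local embeddability is a local property. -/
lemma lef_of_local {Γ : Type} [Group Γ] (h : ∀ H : Subgroup Γ, H.FG → Lef H) : Lef Γ := by
  intro B
  set H : Subgroup Γ := Subgroup.closure (B : Set Γ) with hH
  have hBH : ∀ b ∈ B, b ∈ H := fun b hb => Subgroup.subset_closure (Finset.mem_coe.2 hb)
  obtain ⟨B', hB'⟩ : ∃ B' : Finset H, ∀ (b : Γ) (hb : b ∈ B), (⟨b, hBH b hb⟩ : H) ∈ B' :=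
    ⟨B.attach.image (fun b => (⟨b.1, hBH b.1 b.2⟩ : H)), fun b hb =>
      Finset.mem_image.2 ⟨⟨b, hb⟩, Finset.mem_attach _ _, rfl⟩⟩
  obtain ⟨X, iX, fX, i, hi1, hi2⟩ := h H ⟨B, rfl⟩ B'
  have hmem := hB'
  refine ⟨X, iX, fX, fun g => if hg : g ∈ H then i ⟨g, hg⟩ else 1, ?_, ?_⟩
  · intro a ha b hb hab
    simp only [dif_pos (hBH a ha), dif_pos (hBH b hb)] at hab
    exact congrArg Subtype.val (hi1 _ (hmem a ha) _ (hmem b hb) hab)
  · intro a ha b hb
    simp only [dif_pos (hBH a ha), dif_pos (hBH b hb), dif_pos (H.mul_mem (hBH a ha) (hBH b hb))]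
    exact hi2 _ (hmem a ha) _ (hmem b hb)

theorem MF.lef {Γ : Type} [Group Γ] (h : MF Γ) (hs : MatStable Γ) : Lef Γ :=
  lef_of_local fun H hH => (h.resFin hs H hH).lef

/-- Factors of matricially stable products are matricially stable. -/
lemma MatStable.fst {Γ Λ : Type} [Group Γ] [Group Λ] (h : MatStable (Γ × Λ)) : MatStable Γ := by
  intro k φ hφ
  obtain ⟨ρ, hρ⟩ := h k (fun n p => φ n p.1) (fun a b => hφ a.1 b.1)
  exact ⟨fun n => (ρ n).comp (MonoidHom.inl Γ Λ), fun g => hρ (g, 1)⟩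

/-- **Products**, for MF groups. -/
theorem amenable_of_prod_mf {Γ Λ : Type} [Group Γ] [Group Λ] [Countable Γ] [Countable Λ]
    (hΓ : MF Γ) (w : Λ) (hw : Flows Λ w) (h : MatStable (Γ × Λ)) : Amenable Γ :=
  amenable_of_prod (hΓ.lef h.fst) w hw h

/-- **Products of two groups**, for MF groups. -/
theorem amenable_prod_of_prod_mf {Γ Λ : Type} [Group Γ] [Group Λ] [Countable Γ] [Countable Λ]
    (hΓ : MF Γ) (hΛ : MF Λ) (v : Γ) (hv : Flows Γ v) (w : Λ) (hw : Flows Λ w)
    (h : MatStable (Γ × Λ)) : Amenable (Γ × Λ) :=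
  (amenable_of_prod_mf hΓ w hw h).prod
    (amenable_of_prod_mf hΛ v hv (h.of_equiv MulEquiv.prodComm))

/-- Amenability is a local property. -/
lemma amenable_of_local {Γ : Type} [Group Γ] (h : ∀ H : Subgroup Γ, H.FG → Amenable H) :
    Amenable Γ := by
  intro S ε hε
  set H : Subgroup Γ := Subgroup.closure (S : Set Γ) with hH
  have hSH : ∀ b ∈ S, b ∈ H := fun b hb => Subgroup.subset_closure (Finset.mem_coe.2 hb)
  obtain ⟨S', hS'⟩ : ∃ S' : Finset H, ∀ (b : Γ) (hb : b ∈ S), (⟨b, hSH b hb⟩ : H) ∈ S' :=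
    ⟨S.attach.image (fun b => (⟨b.1, hSH b.1 b.2⟩ : H)), fun b hb =>
      Finset.mem_image.2 ⟨⟨b, hb⟩, Finset.mem_attach _ _, rfl⟩⟩
  obtain ⟨F, hF, hFS⟩ := h H ⟨S, rfl⟩ S' ε hε
  refine ⟨F.map ⟨Subtype.val, Subtype.val_injective⟩, by simpa using hF, fun s hs => ?_⟩
  have h1 : (((F.filter fun x => (⟨s, hSH s hs⟩ : H) * x ∉ F).card : ℕ) : ℝ) ≤ ε * F.card := by
    convert hFS ⟨s, hSH s hs⟩ (hS' s hs)
  rw [Finset.card_map]
  refine le_trans ?_ h1
  rw [Nat.cast_le]
  refine le_trans (Finset.card_le_card ?_) (Finset.card_image_le (f := fun x : H => (x : Γ)))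
  intro y hy
  rw [Finset.mem_filter, Finset.mem_map] at hy
  obtain ⟨⟨x, hx, rfl⟩, hn⟩ := hy
  refine Finset.mem_image.2 ⟨x, Finset.mem_filter.2 ⟨hx, fun h2 => hn ?_⟩, rfl⟩
  exact Finset.mem_map.2 ⟨_, h2, rfl⟩

/-- An integral character on a finitely generated group detecting a given element. -/
lemma exists_int_char {H : Type} [Group H] [hfg : Group.FG H] (χ : H →* Multiplicative ℝ) (z : H)
    (hχ : χ z ≠ 1) : ∃ χ' : H →* Multiplicative ℤ, χ' z ≠ 1 := by
  obtain ⟨S, hS⟩ := hfg.out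
  set M : Submodule ℤ ℝ := Submodule.span ℤ ((S.image fun s => (χ s).toAdd : Finset ℝ) : Set ℝ)
    with hM
  have hmem : ∀ h : H, (χ h).toAdd ∈ M := by
    intro h
    have hh : h ∈ Subgroup.closure (S : Set H) := by rw [hS]; exact Subgroup.mem_top h
    refine Subgroup.closure_induction (p := fun h _ => (χ h).toAdd ∈ M) ?_ ?_ ?_ ?_ hh
    · intro s hs
      exact Submodule.subset_span (Finset.mem_coe.2 (Finset.mem_image_of_mem _ hs))
    · rw [map_one]; exact M.zero_mem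
    · intro x y _ _ hx hy
      rw [map_mul, toAdd_mul]
      exact M.add_mem hx hy
    · intro x _ hx
      rw [map_inv, toAdd_inv]
      exact M.neg_mem hx
  have hfin : Module.Finite ℤ M := Module.Finite.span_finset ℤ _
  have hfree : Module.Free ℤ M := Module.free_of_finite_type_torsion_free'
  have hz : (⟨(χ z).toAdd, hmem z⟩ : M) ≠ 0 := by
    intro h
    apply hχ
    have h1 : (χ z).toAdd = 0 := congrArg Subtype.val h
    exact Multiplicative.toAdd.injective h1
  obtain ⟨f, hf⟩ : ∃ f : Module.Dual ℤ M, f ⟨(χ z).toAdd, hmem z⟩ ≠ 0 := by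
    by_contra hcon
    push Not at hcon
    exact hz ((Module.forall_dual_apply_eq_zero_iff ℤ _).1 hcon)
  refine ⟨MonoidHom.mk' (fun h => Multiplicative.ofAdd (f ⟨(χ h).toAdd, hmem h⟩)) ?_, ?_⟩
  · intro x y
    rw [← ofAdd_add, ← map_add]
    congr 2
    ext
    show (χ (x * y)).toAdd = (χ x).toAdd + (χ y).toAdd
    rw [map_mul, toAdd_mul]
  · intro h
    exact hf (congrArg Multiplicative.toAdd h)

end Pool.Agent.SpecFlow
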