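import Mathlib

/-!
Helper file for MP_a51306_an: a nonzero subspace of almost eigenvectors which is invariant under all
isometries commuting with the operator, and the invariance of its local traces.
-/

set_option autoImplicit false
open Filter Topology
open scoped InnerProductSpace

namespace Pool.Agent.SpecFlow

variable {H : Type*} [NormedAddCommGroup H] [InnerProductSpace ℂ H] [FiniteDimensional ℂ H]

/-- If an operator is small on some unit vector, it is small on some nonzero subspace which is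
invariant under all isometries commuting with the operator. -/
lemma exists_subspace (A : H →ₗ[ℂ] H) (ξ : H) (hξ : ‖ξ‖ = 1) {ε : ℝ} (hA : ‖A ξ‖ ≤ ε) :
    ∃ E : Submodule ℂ H, E ≠ ⊥ ∧ (∀ v ∈ E, ‖A v‖ ≤ ε * ‖v‖) ∧
      ∀ u : H ≃ₗᵢ[ℂ] H, (∀ v, A (u v) = u (A v)) → ∀ v ∈ E, u v ∈ E := by
  have hε : 0 ≤ ε := (norm_nonneg _).trans hA
  have hξ0 : ξ ≠ 0 := fun h => by simp [h] at hξ
  have : Nontrivial H := ⟨ξ, 0, hξ0⟩
  set D : H →ₗ[ℂ] H := A.adjoint * A with hD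
  have hDi : ∀ v w : H, ⟪D v, w⟫_ℂ = ⟪A v, A w⟫_ℂ := fun v w => by
    rw [hD, Module.End.mul_apply, LinearMap.adjoint_inner_left]
  have hDs : D.IsSymmetric := LinearMap.isSymmetric_adjoint_mul_self A
  set d : ℝ := ⨅ x : { x : H // x ≠ 0 }, RCLike.re ⟪D x, x⟫_ℂ / ‖(x : H)‖ ^ 2 with hd
  have hev : Module.End.HasEigenvalue D (d : ℂ) := hDs.hasEigenvalue_iInf_of_finiteDimensional
  have hre : ∀ v : H, RCLike.re ⟪D v, v⟫_ℂ = ‖A v‖ ^ 2 := fun v => by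
    rw [hDi, inner_self_eq_norm_sq]
  have hdle : d ≤ ε ^ 2 := by
    have h1 : d ≤ RCLike.re ⟪D ξ, ξ⟫_ℂ / ‖ξ‖ ^ 2 := by
      refine ciInf_le ⟨0, ?_⟩ (⟨ξ, hξ0⟩ : { x : H // x ≠ 0 })
      rintro _ ⟨x, rfl⟩
      show (0 : ℝ) ≤ RCLike.re ⟪D x, x⟫_ℂ / ‖(x : H)‖ ^ 2
      rw [hre]
      positivity
    refine h1.trans ?_
    rw [hre, hξ, one_pow, div_one]
    exact pow_le_pow_left₀ (norm_nonneg _) hA 2
  refine ⟨Module.End.eigenspace D (d : ℂ), hev, fun v hv => ?_, fun u hu v hv => ?_⟩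
  · rw [Module.End.mem_eigenspace_iff] at hv
    have h1 : ‖A v‖ ^ 2 = d * ‖v‖ ^ 2 := by
      rw [← hre, hv, inner_smul_left, Complex.conj_ofReal]
      have h2 : ((d : ℂ) * ⟪v, v⟫_ℂ) = ((d * ‖v‖ ^ 2 : ℝ) : ℂ) := by
        rw [inner_self_eq_norm_sq_to_K]; push_cast; rfl
      rw [h2]
      exact Complex.ofReal_re _
    have h2 : ‖A v‖ ^ 2 ≤ (ε * ‖v‖) ^ 2 := by
      rw [h1, mul_pow]
      exact mul_le_mul_of_nonneg_right hdle (by positivity)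
    exact (pow_le_pow_iff_left₀ (norm_nonneg _) (by positivity) two_ne_zero).1 h2
  · rw [Module.End.mem_eigenspace_iff] at hv ⊢
    refine ext_inner_right ℂ fun w => ?_
    obtain ⟨w, rfl⟩ := u.surjective w
    rw [hDi, hu, hu, LinearIsometryEquiv.inner_map_map, ← hDi, hv, inner_smul_left,
      inner_smul_left, LinearIsometryEquiv.inner_map_map]

/-- The sum of `|⟨c, u b_i⟩|²` over an orthonormal basis of a subspace does not depend on the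
isometry `u` preserving the subspace. -/
lemma sum_inner_sq_inv {ι : Type*} [Fintype ι] (E : Submodule ℂ H) (b : OrthonormalBasis ι ℂ E)
    (u : H ≃ₗᵢ[ℂ] H) (hu' : ∀ v ∈ E, u.symm v ∈ E) (c : H)
    (hu : ∀ v ∈ E, u v ∈ E) :
    ∑ i, ‖⟪c, u (b i : H)⟫_ℂ‖ ^ 2 = ∑ i, ‖⟪c, (b i : H)⟫_ℂ‖ ^ 2 := by
  have hgen : ∀ w : E, ∑ i, ‖⟪(w : H), (b i : H)⟫_ℂ‖ ^ 2 = ‖(w : H)‖ ^ 2 := by
    intro w
    have := b.sum_sq_norm_inner_left w
    rw [← Submodule.coe_norm]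
    rw [← this]
    rfl
  set P : H → E := fun v => E.orthogonalProjectionOnto v with hP
  have hPi : ∀ w : E, ⟪c, (w : H)⟫_ℂ = ⟪((P c : E) : H), (w : H)⟫_ℂ := by
    intro w
    have := E.inner_orthogonalProjectionOnto_eq_of_mem_right w c
    exact this.symm
  have h1 : ∀ i, ⟪c, u (b i : H)⟫_ℂ
      = ⟪((⟨u.symm (P c : H), hu' _ (P c).2⟩ : E) : H), (b i : H)⟫_ℂ := by
    intro i
    have h2 := hPi ⟨u (b i : H), hu _ (b i).2⟩
    rw [show c = c from rfl] at h2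
    calc ⟪c, u (b i : H)⟫_ℂ = ⟪(P c : H), u (b i : H)⟫_ℂ := h2
      _ = ⟪u (u.symm (P c : H)), u (b i : H)⟫_ℂ := by rw [LinearIsometryEquiv.apply_symm_apply]
      _ = ⟪u.symm (P c : H), (b i : H)⟫_ℂ := LinearIsometryEquiv.inner_map_map _ _ _
  calc ∑ i, ‖⟪c, u (b i : H)⟫_ℂ‖ ^ 2
      = ∑ i, ‖⟪((⟨u.symm (P c : H), hu' _ (P c).2⟩ : E) : H), (b i : H)⟫_ℂ‖ ^ 2 := by
        simp_rw [h1]
    _ = ‖u.symm (P c : H)‖ ^ 2 := hgen _
    _ = ‖(P c : H)‖ ^ 2 := by rw [LinearIsometryEquiv.norm_map]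
    _ = ∑ i, ‖⟪(P c : H), (b i : H)⟫_ℂ‖ ^ 2 := (hgen _).symm
    _ = ∑ i, ‖⟪c, (b i : H)⟫_ℂ‖ ^ 2 := by simp_rw [hPi]

end Pool.Agent.SpecFlow
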