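import Pool.Agent.SpecFlow.Mono
import Pool.Agent.SpecFlow.Spec

/-!
Helper file for MP_a51306_an: an exact representation close to a monomial one gives an almost
invariant probability measure which avoids the points where the spectrum has moved.
-/

set_option autoImplicit false
open Filter Topology
open scoped InnerProductSpace

namespace Pool.Agent.SpecFlow

variable {X : Type*} [Fintype X] {K : Type*} [NormedAddCommGroup K] [InnerProductSpace ℂ K]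

omit [InnerProductSpace ℂ K] in
/-- Squared norms of components of two vectors. -/
lemma sum_abs_sub_le (v w : PiLp 2 (fun _ : X => K)) :
    ∑ x, |‖v x‖ ^ 2 - ‖w x‖ ^ 2| ≤ ‖v - w‖ * (‖v‖ + ‖w‖) := by
  have h1 : ∀ x, |‖v x‖ ^ 2 - ‖w x‖ ^ 2| ≤ ‖(v - w) x‖ * ‖v x‖ + ‖(v - w) x‖ * ‖w x‖ := by
    intro x
    have h2 : ‖v x‖ ^ 2 - ‖w x‖ ^ 2 = (‖v x‖ - ‖w x‖) * (‖v x‖ + ‖w x‖) := by ring
    rw [h2, abs_mul, abs_of_nonneg (by positivity : (0 : ℝ) ≤ ‖v x‖ + ‖w x‖), ← mul_add]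
    refine mul_le_mul_of_nonneg_right ?_ (by positivity)
    rw [PiLp.sub_apply]
    exact abs_norm_sub_norm_le _ _
  have hcs : ∀ a b : PiLp 2 (fun _ : X => K), ∑ x, ‖a x‖ * ‖b x‖ ≤ ‖a‖ * ‖b‖ := by
    intro a b
    have h3 := Finset.sum_mul_sq_le_sq_mul_sq Finset.univ (fun x => ‖a x‖) (fun x => ‖b x‖)
    rw [← norm_sq_eq_sum, ← norm_sq_eq_sum, ← mul_pow] at h3
    exact (pow_le_pow_iff_left₀ (Finset.sum_nonneg fun x _ => by positivity) (by positivity)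
      two_ne_zero).1 h3
  calc ∑ x, |‖v x‖ ^ 2 - ‖w x‖ ^ 2|
      ≤ ∑ x, (‖(v - w) x‖ * ‖v x‖ + ‖(v - w) x‖ * ‖w x‖) := Finset.sum_le_sum fun x _ => h1 x
    _ = ∑ x, ‖(v - w) x‖ * ‖v x‖ + ∑ x, ‖(v - w) x‖ * ‖w x‖ := Finset.sum_add_distrib
    _ ≤ ‖v - w‖ * ‖v‖ + ‖v - w‖ * ‖w‖ := add_le_add (hcs _ _) (hcs _ _)
    _ = ‖v - w‖ * (‖v‖ + ‖w‖) := by ring

/-- The key step. -/
theorem exists_measure [FiniteDimensional ℂ K] {G : Type*} [Group G]
    (ψ : G →* (PiLp 2 (fun _ : X => K) ≃ₗᵢ[ℂ] PiLp 2 (fun _ : X => K)))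
    {ε c : ℝ} (hc : 0 < c) (lam : ℂ) (z : G) (x₀ : X) (v₀ : K) (hv₀ : ‖v₀‖ = 1)
    (B : X → (K ≃ₗᵢ[ℂ] K)) (hB₀ : B x₀ v₀ = lam • v₀) (Out : Finset X)
    (hOut : ∀ x ∈ Out, ∀ w, c * ‖w‖ ≤ ‖B x w - lam • w‖)
    (hz : ∀ v, ‖mono 1 B v - ψ z v‖ ≤ ε * ‖v‖)
    (T : Set G) (hT : ∀ g ∈ T, g * z = z * g) (σ : G → Equiv.Perm X)
    (hσ : ∀ g ∈ T, ∃ U : X → (K ≃ₗᵢ[ℂ] K), ∀ v, ‖mono (σ g) U v - ψ g v‖ ≤ ε * ‖v‖) :
    ∃ μ : X → ℝ, (∀ x, 0 ≤ μ x) ∧ ∑ x, μ x = 1 ∧ ∑ x ∈ Out, μ x ≤ (2 * ε / c) ^ 2 ∧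
      ∀ g ∈ T, ∑ x, |μ (σ g x) - μ x| ≤ 2 * ε := by
  classical
  set H := PiLp 2 (fun _ : X => K) with hH
  -- the invariant subspace
  set A : H →ₗ[ℂ] H := (ψ z).toLinearEquiv.toLinearMap - lam • LinearMap.id with hA
  have hAv : ∀ v, A v = ψ z v - lam • v := fun v => rfl
  set ξ : H := PiLp.single 2 x₀ v₀ with hξ
  have hξ1 : ‖ξ‖ = 1 := by rw [hξ, PiLp.norm_single, hv₀]
  have hBξ : mono 1 B ξ = lam • ξ := by
    ext x
    rw [mono_one_apply, PiLp.smul_apply]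
    rcases eq_or_ne x x₀ with rfl | hx
    · rw [hξ, PiLp.single_eq_same]; exact hB₀
    · rw [hξ]
      simp [hx]
  have hAξ : ‖A ξ‖ ≤ ε := by
    have h1 := hz ξ
    rw [hBξ, hξ1, mul_one] at h1
    rw [hAv, norm_sub_rev]
    exact h1
  obtain ⟨E, hE0, hEA, hEinv⟩ := exists_subspace A ξ hξ1 hAξ
  have hcomm : ∀ g ∈ T, ∀ v ∈ E, ψ g v ∈ E := by
    intro g hg
    refine hEinv (ψ g) fun v => ?_
    rw [hAv, hAv, map_sub, map_smul]
    congr 1
    have h1 : ψ (g * z) = ψ (z * g) := by rw [hT g hg]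
    rw [map_mul, map_mul] at h1
    exact (congrArg (fun e : H ≃ₗᵢ[ℂ] H => e v) h1).symm
  have hcomm' : ∀ g ∈ T, ∀ v ∈ E, (ψ g).symm v ∈ E := by
    intro g hg
    refine hEinv (ψ g).symm fun v => ?_
    rw [hAv, hAv, map_sub, map_smul]
    congr 1
    have h1 : ψ (z * g⁻¹) = ψ (g⁻¹ * z) := by
      congr 1
      rw [eq_inv_mul_iff_mul_eq, ← mul_assoc, hT g hg, mul_assoc, mul_inv_cancel, mul_one]
    rw [map_mul, map_mul, map_inv] at h1
    exact congrArg (fun e : H ≃ₗᵢ[ℂ] H => e v) h1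
  -- the orthonormal basis
  have hEn : Nontrivial E := Submodule.nontrivial_iff_ne_bot.2 hE0
  set b := stdOrthonormalBasis ℂ E with hb
  set d : ℕ := Module.finrank ℂ E with hd
  have hd0 : 0 < (d : ℝ) := by exact_mod_cast (Module.finrank_pos (R := ℂ) (M := E))
  have hb1 : ∀ i, ‖(b i : H)‖ = 1 := fun i => by
    rw [← Submodule.coe_norm]; exact b.orthonormal.1 i
  set μ : X → ℝ := fun x => (∑ i, ‖(b i : H) x‖ ^ 2) / d with hμ
  -- invariance of the local traces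
  have hinv : ∀ g ∈ T, ∀ x, ∑ i, ‖(ψ g (b i : H)) x‖ ^ 2 = ∑ i, ‖(b i : H) x‖ ^ 2 := by
    intro g hg x
    set bK := stdOrthonormalBasis ℂ K with hbK
    have h1 : ∀ v : H, ‖v x‖ ^ 2 = ∑ a, ‖⟪(PiLp.single 2 x (bK a) : H), v⟫_ℂ‖ ^ 2 := by
      intro v
      rw [← bK.sum_sq_norm_inner_right]
      refine Finset.sum_congr rfl fun a _ => ?_
      congr 2
      rw [PiLp.inner_apply, Finset.sum_eq_single x]
      · rw [PiLp.single_eq_same]
      · intro y _ hy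
        simp [hy]
      · intro h; exact absurd (Finset.mem_univ x) h
    simp_rw [h1]
    rw [Finset.sum_comm, Finset.sum_comm (s := (Finset.univ : Finset (Fin d)))]
    refine Finset.sum_congr rfl fun a _ => ?_
    exact sum_inner_sq_inv E b (ψ g) (hcomm' g hg) _ (hcomm g hg)
  refine ⟨μ, fun x => by positivity, ?_, ?_, ?_⟩
  · rw [hμ, ← Finset.sum_div, Finset.sum_comm]
    have : ∀ i, ∑ x, ‖(b i : H) x‖ ^ 2 = 1 := fun i => by
      rw [← norm_sq_eq_sum, hb1, one_pow]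
    simp_rw [this]
    rw [Finset.sum_const, Finset.card_univ, Fintype.card_fin, nsmul_eq_mul, mul_one,
      div_self hd0.ne']
  · rw [hμ, ← Finset.sum_div, Finset.sum_comm, div_le_iff₀ hd0]
    have h1 : ∀ i : Fin d, ∑ x ∈ Out, ‖(b i : H) x‖ ^ 2 ≤ (2 * ε / c) ^ 2 := by
      intro i
      set v : H := (b i : H) with hv
      have hvE : v ∈ E := (b i).2
      have h2 : ‖mono 1 B v - lam • v‖ ≤ 2 * ε := by
        have h3 := hz v
        have h4 := hEA v hvE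
        rw [hAv] at h4
        rw [hb1, mul_one] at h3 h4
        calc ‖mono 1 B v - lam • v‖ = ‖(mono 1 B v - ψ z v) + (ψ z v - lam • v)‖ := by
              rw [sub_add_sub_cancel]
          _ ≤ ‖mono 1 B v - ψ z v‖ + ‖ψ z v - lam • v‖ := norm_add_le _ _
          _ ≤ 2 * ε := by linarith
      have h5 : c ^ 2 * ∑ x ∈ Out, ‖v x‖ ^ 2 ≤ (2 * ε) ^ 2 := by
        calc c ^ 2 * ∑ x ∈ Out, ‖v x‖ ^ 2 = ∑ x ∈ Out, (c * ‖v x‖) ^ 2 := by
              rw [Finset.mul_sum]; simp_rw [mul_pow]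
          _ ≤ ∑ x ∈ Out, ‖(mono 1 B v - lam • v) x‖ ^ 2 := by
              refine Finset.sum_le_sum fun x hx => ?_
              refine pow_le_pow_left₀ (by positivity) ?_ 2
              rw [PiLp.sub_apply, PiLp.smul_apply, mono_one_apply]
              exact hOut x hx _
          _ ≤ ∑ x, ‖(mono 1 B v - lam • v) x‖ ^ 2 :=
              Finset.sum_le_sum_of_subset_of_nonneg (Finset.subset_univ _)
                fun _ _ _ => by positivity
          _ = ‖mono 1 B v - lam • v‖ ^ 2 := (norm_sq_eq_sum _).symm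
          _ ≤ (2 * ε) ^ 2 := pow_le_pow_left₀ (norm_nonneg _) h2 2
      rw [div_pow, le_div_iff₀ (by positivity), mul_comm]
      exact h5
    calc ∑ i : Fin d, ∑ x ∈ Out, ‖(b i : H) x‖ ^ 2 ≤ ∑ _i : Fin d, (2 * ε / c) ^ 2 :=
          Finset.sum_le_sum fun i _ => h1 i
      _ = (2 * ε / c) ^ 2 * d := by
          rw [Finset.sum_const, Finset.card_univ, Fintype.card_fin, nsmul_eq_mul, mul_comm]
  · intro g hg
    obtain ⟨U, hU⟩ := hσ g hg
    have h1 : ∀ x, |μ (σ g x) - μ x|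
        ≤ (∑ i, |‖(ψ g (b i : H)) (σ g x)‖ ^ 2 - ‖(mono (σ g) U (b i : H)) (σ g x)‖ ^ 2|) / d := by
      intro x
      have h2 : μ (σ g x) - μ x = (∑ i, (‖(ψ g (b i : H)) (σ g x)‖ ^ 2
          - ‖(mono (σ g) U (b i : H)) (σ g x)‖ ^ 2)) / d := by
        rw [hμ]
        simp only
        rw [← hinv g hg (σ g x), ← sub_div, ← Finset.sum_sub_distrib]
        congr 1
        refine Finset.sum_congr rfl fun i _ => ?_
        rw [mono_apply, LinearIsometryEquiv.norm_map]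
      rw [h2, abs_div, abs_of_pos hd0]
      exact div_le_div_of_nonneg_right (Finset.abs_sum_le_sum_abs _ _) hd0.le
    calc ∑ x, |μ (σ g x) - μ x|
        ≤ ∑ x, (∑ i, |‖(ψ g (b i : H)) (σ g x)‖ ^ 2
            - ‖(mono (σ g) U (b i : H)) (σ g x)‖ ^ 2|) / d := Finset.sum_le_sum fun x _ => h1 x
      _ = (∑ i, ∑ x, |‖(ψ g (b i : H)) (σ g x)‖ ^ 2
            - ‖(mono (σ g) U (b i : H)) (σ g x)‖ ^ 2|) / d := by
          rw [← Finset.sum_div, Finset.sum_comm]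
      _ ≤ (∑ _i : Fin d, 2 * ε) / d := by
          refine div_le_div_of_nonneg_right (Finset.sum_le_sum fun i _ => ?_) hd0.le
          have h3 : ∑ x, |‖(ψ g (b i : H)) (σ g x)‖ ^ 2
              - ‖(mono (σ g) U (b i : H)) (σ g x)‖ ^ 2|
              = ∑ y, |‖(ψ g (b i : H)) y‖ ^ 2 - ‖(mono (σ g) U (b i : H)) y‖ ^ 2| :=
            Equiv.sum_comp (σ g) (fun y => |‖(ψ g (b i : H)) y‖ ^ 2
              - ‖(mono (σ g) U (b i : H)) y‖ ^ 2|)
          rw [h3]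
          refine (sum_abs_sub_le _ _).trans ?_
          rw [LinearIsometryEquiv.norm_map, LinearIsometryEquiv.norm_map, hb1, norm_sub_rev]
          have h4 := hU (b i : H)
          rw [hb1, mul_one] at h4
          linarith
      _ = 2 * ε := by
          rw [Finset.sum_const, Finset.card_univ, Fintype.card_fin, nsmul_eq_mul]
          field_simp

end Pool.Agent.SpecFlow
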