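import Pool.Agent.SpecFlow.Transfer
import Pool.Agent.SpecFlow.Measure
import Pool.Agent.SpecFlow.Foelner
import Pool.Agent.SpecFlow.Geom

/-!
Helper file for MP_a51306_an: the main theorem for paths of unitary representations on a
finite-dimensional Hilbert space.
-/

set_option autoImplicit false
open Filter Topology
open scoped Classical Pointwise

namespace Pool.Agent.SpecFlow

section Measures

variable {Q : Type} [Group Q] {a : ℕ → Q} {N : ℕ} (e : LocEmb (ex a (2 * N + 1)))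

/-- From an almost invariant measure on the finite group to sets in `Q`. -/
lemma exists_set (hN : 1 ≤ N) (μ : e.X → ℝ) (hμ0 : ∀ x, 0 ≤ μ x) (hμ1 : ∑ x, μ x = 1) {η ε δ : ℝ}
    (hout : ∑ x ∈ Finset.univ.filter (fun x => x ∉ img a N e (2 * N - 1)), μ x ≤ η)
    {T : Type*} (S : Finset T) (t : T → Q) (ht : ∀ s ∈ S, t s ∈ gens a N)
    (hinv : ∀ s ∈ S, ∑ x, |μ (e.i (t s) * x) - μ x| ≤ ε)
    (hδ0 : 0 < δ) (hδ : S.card * (ε + 2 * η) < δ * (1 - η)) :
    ∃ W F : Finset Q, F ⊆ W ∧ F.Nonempty ∧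
      ∑ s ∈ S, (((W.filter fun y => ¬ (t s * y ∈ F ↔ y ∈ F)).card : ℕ) : ℝ) < δ * F.card := by
  set Out := Finset.univ.filter (fun x => x ∉ img a N e (2 * N - 1)) with hOut
  set μ' : e.X → ℝ := fun x => if x ∈ Out then 0 else μ x with hμ'
  have hμ'0 : ∀ x, 0 ≤ μ' x := fun x => by
    simp only [hμ']; split_ifs; exacts [le_refl _, hμ0 x]
  set ν : Q → ℝ := fun y => if y ∈ ex a (2 * N - 1) then μ (e.i y) else 0 with hν
  have hinj : ∀ y ∈ ex a (2 * N + 1), ∀ y' ∈ ex a (2 * N + 1), e.i y = e.i y' → y = y' := e.inj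
  have hνμ : ∀ y ∈ ex a (2 * N + 1), ν y = μ' (e.i y) := by
    intro y hy
    have h1 : e.i y ∈ Out ↔ y ∉ ex a (2 * N - 1) := by
      rw [hOut, Finset.mem_filter, img, Finset.mem_image]
      constructor
      · exact fun h hy' => h.2 ⟨y, hy', rfl⟩
      · rintro h
        refine ⟨Finset.mem_univ _, ?_⟩
        rintro ⟨y', hy', heq⟩
        rw [hinj y' (ex_mono a (by omega) hy') y hy heq] at hy'
        exact h hy'
    simp only [hν, hμ']
    by_cases hy' : y ∈ ex a (2 * N - 1)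
    · rw [if_pos hy', if_neg (by rw [h1, not_not]; exact hy')]
    · rw [if_neg hy', if_pos (h1.2 hy')]
  set W := ex a (2 * N) with hW
  -- the total mass
  have hmass : 1 - η ≤ ∑ y ∈ W, ν y := by
    have h1 : ∑ y ∈ W, ν y = ∑ y ∈ ex a (2 * N - 1), μ (e.i y) := by
      rw [← Finset.sum_subset (ex_mono a (by omega : 2 * N - 1 ≤ 2 * N))
        (fun y _ hy => by simp only [hν, if_neg hy])]
      exact Finset.sum_congr rfl fun y hy => by simp only [hν, if_pos hy]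
    have h2 : ∑ y ∈ ex a (2 * N - 1), μ (e.i y) = ∑ x ∈ img a N e (2 * N - 1), μ x := by
      rw [img, Finset.sum_image]
      intro y hy y' hy' heq
      exact hinj y (ex_mono a (by omega) hy) y' (ex_mono a (by omega) hy') heq
    have h3 : ∑ x ∈ img a N e (2 * N - 1), μ x + ∑ x ∈ Out, μ x = 1 := by
      rw [← hμ1, hOut]
      have h4 : img a N e (2 * N - 1) = Finset.univ.filter (fun x => x ∈ img a N e (2 * N - 1)) := by
        ext x; simp
      conv_lhs => rw [h4]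
      simp only [Finset.mem_filter, Finset.mem_univ, true_and]
      exact Finset.sum_filter_add_sum_filter_not _ _ _
    rw [h1, h2]
    linarith
  -- almost invariance
  have hai : ∀ s ∈ S, ∑ y ∈ W, |ν (t s * y) - ν y| ≤ ε + 2 * η := by
    intro s hs
    have h1 : ∀ y ∈ W, |ν (t s * y) - ν y| = |μ' (e.i (t s) * e.i y) - μ' (e.i y)| := by
      intro y hy
      rw [hνμ y (ex_mono a (by omega) hy), hνμ _ (ex_step a (by omega : N ≤ 2 * N + 1) (ht s hs) hy),
        i_mul e (ht s hs) (by omega) hy]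
    rw [Finset.sum_congr rfl h1]
    have h2 : ∑ y ∈ W, |μ' (e.i (t s) * e.i y) - μ' (e.i y)|
        = ∑ x ∈ W.image e.i, |μ' (e.i (t s) * x) - μ' x| := by
      rw [Finset.sum_image]
      intro y hy y' hy' heq
      exact hinj y (ex_mono a (by omega) hy) y' (ex_mono a (by omega) hy') heq
    rw [h2]
    have h3 : ∀ x, |μ' (e.i (t s) * x) - μ' x| ≤ |μ (e.i (t s) * x) - μ x|
        + ((if e.i (t s) * x ∈ Out then μ (e.i (t s) * x) else 0)
          + (if x ∈ Out then μ x else 0)) := by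
      intro x
      have h4 : ∀ y, μ' y = μ y - (if y ∈ Out then μ y else 0) := by
        intro y
        simp only [hμ']
        split_ifs <;> ring
      have h5 : ∀ y, 0 ≤ (if y ∈ Out then μ y else 0) := by
        intro y
        split_ifs
        exacts [hμ0 y, le_refl _]
      rw [h4, h4]
      have h6 := h5 x
      have h7 := h5 (e.i (t s) * x)
      have h8 := abs_le.1 (le_refl |μ (e.i (t s) * x) - μ x|)
      rw [abs_le]
      constructor
      · linarith [h8.1]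
      · linarith [h8.2]
    have h9 : ∑ x, (if x ∈ Out then μ x else 0) ≤ η := by
      rw [← Finset.sum_filter]
      refine le_trans (le_of_eq ?_) hout
      refine Finset.sum_congr ?_ fun _ _ => rfl
      ext x; simp
    have h10 : ∑ x, (if e.i (t s) * x ∈ Out then μ (e.i (t s) * x) else 0) ≤ η := by
      refine le_trans (le_of_eq ?_) h9
      exact Equiv.sum_comp (Equiv.mulLeft (e.i (t s))) (fun x => if x ∈ Out then μ x else 0)
    calc ∑ x ∈ W.image e.i, |μ' (e.i (t s) * x) - μ' x|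
        ≤ ∑ x, |μ' (e.i (t s) * x) - μ' x| :=
          Finset.sum_le_sum_of_subset_of_nonneg (Finset.subset_univ _) fun _ _ _ => abs_nonneg _
      _ ≤ ∑ x, (|μ (e.i (t s) * x) - μ x|
          + ((if e.i (t s) * x ∈ Out then μ (e.i (t s) * x) else 0)
            + (if x ∈ Out then μ x else 0))) := Finset.sum_le_sum fun x _ => h3 x
      _ = ∑ x, |μ (e.i (t s) * x) - μ x|
          + (∑ x, (if e.i (t s) * x ∈ Out then μ (e.i (t s) * x) else 0)
            + ∑ x, (if x ∈ Out then μ x else 0)) := by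
          rw [Finset.sum_add_distrib, Finset.sum_add_distrib]
      _ ≤ ε + 2 * η := by
          have := hinv s hs
          linarith
  obtain ⟨F, hFW, hFne, hF⟩ := layer W S (fun s y => t s * y) δ _ ν
    (fun y => by simp only [hν]; split_ifs; exacts [hμ0 _, le_refl _])
    (fun y hy => by
      simp only [hν]
      rw [if_neg fun h => hy (ex_mono a (by omega) h)])
    (le_refl _) (by
      calc ∑ s ∈ S, ∑ y ∈ W, |ν (t s * y) - ν y| ≤ ∑ _s ∈ S, (ε + 2 * η) :=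
            Finset.sum_le_sum hai
        _ = S.card * (ε + 2 * η) := by rw [Finset.sum_const, nsmul_eq_mul]
        _ < δ * (1 - η) := hδ
        _ ≤ δ * ∑ y ∈ W, ν y := mul_le_mul_of_nonneg_left hmass hδ0.le)
  exact ⟨W, F, hFW, hFne, hF⟩

end Measures

/-- Uniform continuity of a path of operators on `[0, 1]`. -/
lemma path_unif {K : Type} [NormedAddCommGroup K] [InnerProductSpace ℂ K]
    (P : ℝ → (K ≃ₗᵢ[ℂ] K)) (hP : Continuous fun t => ((P t : K ≃L[ℂ] K) : K →L[ℂ] K))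
    {ε : ℝ} (hε : 0 < ε) :
    ∃ δ : ℝ, 0 < δ ∧ ∀ t ∈ Set.Icc (0 : ℝ) 1, ∀ t' ∈ Set.Icc (0 : ℝ) 1, |t - t'| < δ →
      ∀ w : K, ‖P t w - P t' w‖ ≤ ε * ‖w‖ := by
  have h1 := (isCompact_Icc (a := (0 : ℝ)) (b := 1)).uniformContinuousOn_of_continuous
    hP.continuousOn
  rw [Metric.uniformContinuousOn_iff] at h1
  obtain ⟨δ, hδ, h2⟩ := h1 ε hε
  refine ⟨δ, hδ, fun t ht t' ht' htt w => ?_⟩
  have h3 := h2 t ht t' ht' (by rwa [Real.dist_eq])
  rw [dist_eq_norm] at h3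
  exact (((P t : K ≃L[ℂ] K) : K →L[ℂ] K) - ((P t' : K ≃L[ℂ] K) : K →L[ℂ] K)).le_of_opNorm_le
    h3.le w

/-- The choice of `ε`. -/
lemma exists_eps {c ε₀ : ℝ} (hε₀ : 0 < ε₀) (M : ℝ) :
    ∃ ε : ℝ, 0 < ε ∧ M * (2 * ε + 2 * (2 * ε / c) ^ 2) < ε₀ * (1 - (2 * ε / c) ^ 2) := by
  have h1 : Continuous fun ε : ℝ => ε₀ * (1 - (2 * ε / c) ^ 2)
      - M * (2 * ε + 2 * (2 * ε / c) ^ 2) := by fun_prop
  have h2 : Tendsto (fun ε : ℝ => ε₀ * (1 - (2 * ε / c) ^ 2)
      - M * (2 * ε + 2 * (2 * ε / c) ^ 2)) (𝓝[>] 0) (𝓝 ε₀) := by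
    have h3 := (h1.tendsto 0).mono_left (nhdsWithin_le_nhds (s := Set.Ioi 0))
    simpa using h3
  have h4 := (h2.eventually_const_lt hε₀).and self_mem_nhdsWithin
  obtain ⟨ε, hε, hε'⟩ := h4.exists
  exact ⟨ε, hε', by linarith⟩

section Construction

variable {G Q : Type} [Group G] [Group Q] (q : G →* Q) {a : ℕ → Q}
  {K : Type} [NormedAddCommGroup K] [InnerProductSpace ℂ K]
  (P : ℝ → G →* (K ≃ₗᵢ[ℂ] K)) {n : ℕ} (e : LocEmb (ex a (2 * (n + 1) + 1)))

/-- The almost representation. -/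
noncomputable def phi (g : G) :
    PiLp 2 (fun _ : e.X => K) ≃ₗᵢ[ℂ] PiLp 2 (fun _ : e.X => K) :=
  mono (Equiv.mulLeft (e.i (q g))) (fun x => P (slow e x) g)

lemma phi_mul_le {ε δ : ℝ} (hε : 0 < ε) {g h : G}
    (hun : ∀ t ∈ Set.Icc (0 : ℝ) 1, ∀ t' ∈ Set.Icc (0 : ℝ) 1, |t - t'| < δ →
      ∀ w : K, ‖P t g w - P t' g w‖ ≤ ε * ‖w‖)
    (hg : q g ∈ gens a (n + 1)) (hh : q h ∈ gens a (n + 1)) (hn : 1 / ((n : ℝ) + 1) < δ)
    (v : PiLp 2 (fun _ : e.X => K)) :
    ‖phi q P e (g * h) v - phi q P e g (phi q P e h v)‖ ≤ ε * ‖v‖ := by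
  have hmul : e.i (q (g * h)) = e.i (q g) * e.i (q h) := by
    rw [map_mul]
    exact i_mul e hg (le_refl _) (gens_subset_ex a (by omega) hh)
  have hperm : Equiv.mulLeft (e.i (q (g * h)))
      = Equiv.mulLeft (e.i (q g)) * Equiv.mulLeft (e.i (q h)) := by
    rw [hmul]
    ext x
    simp
  unfold phi
  rw [mono_mul_apply, hperm]
  refine norm_mono_sub_le _ _ _ hε.le (fun x w => ?_) v
  rw [map_mul, LinearIsometryEquiv.coe_mul, LinearIsometryEquiv.coe_mul, Function.comp_apply,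
    Function.comp_apply]
  refine (hun _ (slow_mem _ _) _ (slow_mem _ _) ?_ _).trans_eq ?_
  · rw [abs_sub_comm]
    refine lt_of_le_of_lt (slow_lip e hh x) ?_
    push_cast
    exact hn
  · rw [LinearIsometryEquiv.norm_map]

lemma phi_z {z : G} (hz : q z = 1) (v : PiLp 2 (fun _ : e.X => K)) :
    mono 1 (fun x => P (slow e x) z) v = phi q P e z v := by
  have h2 : Equiv.mulLeft (e.i (q z)) = 1 := by
    rw [hz, i_one]
    ext x
    simp
  unfold phi
  rw [h2]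

end Construction

/-- A lower bound for an injective operator. -/
lemma exists_lower {K : Type} [NormedAddCommGroup K] [InnerProductSpace ℂ K]
    [FiniteDimensional ℂ K] (u : K ≃ₗᵢ[ℂ] K) (lam : ℂ) (h1 : ∀ w, u w = lam • w → w = 0) :
    ∃ c : ℝ, 0 < c ∧ ∀ w, c * ‖w‖ ≤ ‖u w - lam • w‖ := by
  set A : K →ₗ[ℂ] K := u.toLinearEquiv.toLinearMap - lam • LinearMap.id with hA
  have hker : LinearMap.ker A = ⊥ := by
    rw [LinearMap.ker_eq_bot']
    intro w hw
    exact h1 w (sub_eq_zero.1 hw)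
  obtain ⟨C, hC, hAC⟩ := A.exists_antilipschitzWith hker
  have hC' : (0 : ℝ) < C := by exact_mod_cast hC
  refine ⟨1 / C, by positivity, fun w => ?_⟩
  have h2 := hAC.le_mul_dist w 0
  rw [map_zero, dist_zero_right, dist_zero_right] at h2
  rw [one_div, inv_mul_le_iff₀ hC']
  exact h2

/-- The finite stage. -/
lemma stage {G Q : Type} [Group G] [Group Q] (q : G →* Q) {a : ℕ → Q}
    {K : Type} [NormedAddCommGroup K] [InnerProductSpace ℂ K] [FiniteDimensional ℂ K]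
    (P : ℝ → G →* (K ≃ₗᵢ[ℂ] K)) {n : ℕ} (e : LocEmb (ex a (2 * (n + 1) + 1)))
    (ψ : G →* (PiLp 2 (fun _ : e.X => K) ≃ₗᵢ[ℂ] PiLp 2 (fun _ : e.X => K)))
    (z : G) (hz : q z = 1) (lam : ℂ) (v₀ : K) (hv₀ : ‖v₀‖ = 1) (h0 : P 0 z v₀ = lam • v₀)
    {c ε ε₀ : ℝ} (hc : 0 < c) (hcw : ∀ w, c * ‖w‖ ≤ ‖P 1 z w - lam • w‖) (hε₀ : 0 < ε₀)
    (C : Subgroup Q) (S : Finset C) (lift : C → G) (hlz : ∀ s, lift s * z = z * lift s)
    (hlq : ∀ s, q (lift s) = (s : Q))
    (hεS : S.card * (2 * ε + 2 * (2 * ε / c) ^ 2) < ε₀ * (1 - (2 * ε / c) ^ 2))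
    (hn : ∀ s ∈ S, q (lift s) ∈ gens a (n + 1))
    (hnS : ∀ s ∈ S, ∀ v, ‖phi q P e (lift s) v - ψ (lift s) v‖ ≤ ε * ‖v‖)
    (hnz : ∀ v, ‖phi q P e z v - ψ z v‖ ≤ ε * ‖v‖) :
    ∃ F : Finset C, F.Nonempty ∧
      ∀ s ∈ S, (((F.filter fun x => s * x ∉ F).card : ℕ) : ℝ) ≤ ε₀ * F.card := by
  obtain ⟨μ, hμ0, hμ1, hμout, hμinv⟩ := exists_measure ψ hc lam z (1 : e.X) v₀ hv₀
    (fun x => P (slow e x) z) (by
      show P (slow e 1) z v₀ = lam • v₀
      rw [slow_one]; exact h0)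
    (Finset.univ.filter (fun x => x ∉ img a (n + 1) e (2 * (n + 1) - 1)))
    (by
      intro x hx w
      rw [Finset.mem_filter] at hx
      show c * ‖w‖ ≤ ‖P (slow e x) z w - lam • w‖
      rw [slow_eq e (by omega) hx.2]
      exact hcw w)
    (fun v => by rw [phi_z q P e hz]; exact hnz v)
    (lift '' (S : Set _)) (by rintro _ ⟨s, _, rfl⟩; exact hlz s)
    (fun g => Equiv.mulLeft (e.i (q g)))
    (by
      rintro _ ⟨s, hs, rfl⟩
      exact ⟨fun x => P (slow e x) (lift s), hnS s hs⟩)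
  obtain ⟨W, F, hFW, hFne, hF⟩ := exists_set e (by omega) μ hμ0 hμ1 hμout S
    (fun s => (s : Q)) (fun s hs => by rw [← hlq]; exact hn s hs)
    (ε := 2 * ε) (fun s hs => by
      have := hμinv (lift s) ⟨s, hs, rfl⟩
      simp only [Equiv.coe_mulLeft, hlq] at this
      exact this) hε₀ hεS
  obtain ⟨F', hF'ne, hF'⟩ := coset _ S W F hFW ε₀ hF
  refine ⟨F', hF'ne, fun s hs => ?_⟩
  refine le_trans ?_ hF'.le
  exact Finset.single_le_sum (f := fun s => (((F'.filter fun x => s * x ∉ F').card : ℕ) : ℝ))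
    (fun _ _ => Nat.cast_nonneg _) hs

/-- **Main theorem**, for a path of representations on a finite-dimensional Hilbert space. -/
theorem amenable_of_path {G Q : Type} [Group G] [Countable G] [Group Q] (hG : MatStable G)
    (hQ : Lef Q) (q : G →* Q) (z : G) (hz : q z = 1)
    {K : Type} [NormedAddCommGroup K] [InnerProductSpace ℂ K] [FiniteDimensional ℂ K]
    (P : ℝ → G →* (K ≃ₗᵢ[ℂ] K))
    (hP : ∀ g, Continuous fun t => ((P t g : K ≃L[ℂ] K) : K →L[ℂ] K))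
    (lam : ℂ) (v₀ : K) (hv₀ : ‖v₀‖ = 1) (h0 : P 0 z v₀ = lam • v₀)
    (h1 : ∀ w, P 1 z w = lam • w → w = 0) :
    Amenable ((Subgroup.centralizer {z}).map q) := by
  have : CompleteSpace K := FiniteDimensional.complete ℂ K
  obtain ⟨e, he⟩ := exists_surjective_nat G
  obtain ⟨a, ha⟩ : ∃ a : ℕ → Q, ∀ n, a n = q (e n) := ⟨fun n => q (e n), fun _ => rfl⟩
  have hemb : ∀ n : ℕ, Nonempty (LocEmb (ex a (2 * (n + 1) + 1))) := fun n => hQ.exists_locEmb _
  obtain ⟨emb⟩ : Nonempty (∀ n : ℕ, LocEmb (ex a (2 * (n + 1) + 1))) :=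
    ⟨fun n => (hemb n).some⟩
  have hgen : ∀ g : G, ∀ᶠ n in atTop, q g ∈ gens a (n + 1) := by
    intro g
    obtain ⟨i, rfl⟩ := he g
    filter_upwards [eventually_ge_atTop i] with n hn
    rw [← ha]
    exact mem_gens a (by omega : i < n + 1)
  have hlim : Tendsto (fun n : ℕ => 1 / ((n : ℝ) + 1)) atTop (𝓝 0) :=
    tendsto_one_div_add_atTop_nhds_zero_nat
  obtain ⟨ψ, hψ⟩ := hG.abstract (fun n => PiLp 2 (fun _ : (emb n).X => K))
    (fun n => phi q P (emb n)) (by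
    intro g h ε hε
    obtain ⟨δ, hδ, hun⟩ := path_unif (fun t => P t g) (hP g) hε
    filter_upwards [hgen g, hgen h, hlim.eventually_lt_const hδ] with n hg hh hn v
    exact phi_mul_le q P (emb n) hε hun hg hh hn v)
  obtain ⟨c, hc, hcw⟩ := exists_lower (P 1 z) lam h1
  intro S ε₀ hε₀
  have hlift : ∀ s : (Subgroup.centralizer {z}).map q, ∃ g : G, g * z = z * g ∧ q g = (s : Q) := by
    rintro ⟨s, g, hg, rfl⟩
    exact ⟨g, (Subgroup.mem_centralizer_singleton_iff.1 hg), rfl⟩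
  choose lift hlz hlq using hlift
  obtain ⟨ε, hε, hεS⟩ := exists_eps (c := c) hε₀ (S.card : ℝ)
  have hev : ∀ᶠ n in atTop, (∀ s ∈ S, (q (lift s) ∈ gens a (n + 1) ∧
      ∀ v, ‖phi q P (emb n) (lift s) v - ψ n (lift s) v‖ ≤ ε * ‖v‖)) ∧
      ∀ v, ‖phi q P (emb n) z v - ψ n z v‖ ≤ ε * ‖v‖ := by
    refine Filter.Eventually.and ?_ (hψ z ε hε)
    rw [Filter.eventually_all_finset]
    intro s _
    exact (hgen _).and (hψ _ ε hε)
  obtain ⟨n, hn, hnz⟩ := hev.exists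
  obtain ⟨F, hF, hF'⟩ := stage q P (emb n) (ψ n) z hz lam v₀ hv₀ h0 hc hcw hε₀ _ S lift hlz hlq hεS
    (fun s hs => (hn s hs).1) (fun s hs => (hn s hs).2) hnz
  refine ⟨F, hF, fun s hs => ?_⟩
  convert hF' s hs

end Pool.Agent.SpecFlow
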