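import Mathlib

/-!
Helper file for MP_a51306_an: Malcev's theorem, finitely generated linear groups are residually
finite (a homomorphism to unitary matrices is separated from `1` by finite quotients).
-/

set_option autoImplicit false

namespace Pool.Agent.SpecFlow

lemma isJacobsonRing_int : IsJacobsonRing ℤ := by
  rw [isJacobsonRing_iff_prime_eq]
  intro P hP
  by_cases h0 : P = ⊥
  · subst h0
    rw [eq_bot_iff]
    intro x hx
    rw [Ideal.mem_jacobson_bot] at hx
    have h1 := hx 1
    have h2 := hx 2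
    rw [Int.isUnit_iff] at h1 h2
    rw [Ideal.mem_bot]
    omega
  · have hmax : P.IsMaximal := hP.isMaximal h0
    exact Ideal.jacobson_eq_self_of_isMaximal

/-- A field which is finitely generated as a ring is finite. -/
lemma finite_of_finiteType_int (k : Type*) [Field k] [Algebra.FiniteType ℤ k] : Finite k := by
  have : IsJacobsonRing ℤ := isJacobsonRing_int
  have hfin : Module.Finite ℤ k := finite_of_finite_type_of_isJacobsonRing ℤ k
  have hint : Algebra.IsIntegral ℤ k := inferInstance
  have hninj : ¬ Function.Injective (algebraMap ℤ k) := fun hinj =>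
    Int.not_isField (isField_of_isIntegral_of_isField hinj (Field.toIsField k))
  rw [injective_iff_map_eq_zero] at hninj
  push Not at hninj
  obtain ⟨a, ha, ha0⟩ := hninj
  refine Module.finite_of_fg_torsion k ?_
  intro x
  refine ⟨⟨a, mem_nonZeroDivisors_of_ne_zero ha0⟩, ?_⟩
  show a • x = 0
  rw [Algebra.smul_def, ha, zero_mul]

/-- In a finitely generated domain, a nonzero element is nonzero in some finite field quotient. -/
lemma exists_finite_quotient (A : Type*) [CommRing A] [IsDomain A] [Algebra.FiniteType ℤ A]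
    (d : A) (hd : d ≠ 0) : ∃ (m : Ideal A), m.IsMaximal ∧ d ∉ m ∧ Finite (A ⧸ m) := by
  have : IsJacobsonRing ℤ := isJacobsonRing_int
  have hA : IsJacobsonRing A := isJacobsonRing_of_finiteType (A := ℤ)
  have h1 : (⊥ : Ideal A).jacobson = ⊥ :=
    isJacobsonRing_iff_prime_eq.1 hA ⊥ Ideal.isPrime_bot
  have h2 : d ∉ (⊥ : Ideal A).jacobson := by
    rw [h1, Ideal.mem_bot]; exact hd
  rw [Ideal.jacobson, Submodule.mem_sInf] at h2
  push Not at h2
  obtain ⟨m, ⟨_, hm⟩, hdm⟩ := h2
  refine ⟨m, hm, hdm, ?_⟩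
  let _ : Field (A ⧸ m) := Ideal.Quotient.field m
  have : Algebra.FiniteType ℤ (A ⧸ m) :=
    Algebra.FiniteType.of_surjective (Ideal.Quotient.mkₐ ℤ m) (Ideal.Quotient.mkₐ_surjective ℤ m)
  refine @finite_of_finiteType_int (A ⧸ m) _ ?_
  convert this
  · rfl
  · exact Subsingleton.elim _ _

/-- **Malcev's theorem.** Let `G` be a finitely generated group and `ρ` a homomorphism to a group of
unitary matrices. If `ρ g ≠ 1`, then `g` is nontrivial in some finite quotient of `G`. -/
theorem malcev {G : Type} [Group G] (S : Finset G) (hS : Subgroup.closure (S : Set G) = ⊤) {m : ℕ}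
    (ρ : G →* Matrix.unitaryGroup (Fin m) ℂ) (g : G) (hg : ρ g ≠ 1) :
    ∃ (F : Type) (_ : Group F) (_ : Finite F) (f : G →* F), f g ≠ 1 := by
  classical
  set E : Finset ℂ := (S ×ˢ (Finset.univ : Finset (Fin m × Fin m))).image
      (fun r => (ρ r.1).val r.2.1 r.2.2) ∪
    (S ×ˢ (Finset.univ : Finset (Fin m × Fin m))).image
      (fun r => (ρ r.1⁻¹).val r.2.1 r.2.2) with hE
  set A : Subalgebra ℤ ℂ := Algebra.adjoin ℤ (E : Set ℂ) with hA
  have hAfin : Algebra.FiniteType ℤ A :=
    ((Subalgebra.fg_iff_finiteType A).1 (Subalgebra.fg_adjoin_finset E))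
  have hmemE : ∀ s ∈ S, ∀ i j, (ρ s).val i j ∈ A ∧ (ρ s⁻¹).val i j ∈ A := by
    intro s hs i j
    refine ⟨Algebra.subset_adjoin ?_, Algebra.subset_adjoin ?_⟩
    · exact Finset.mem_coe.2 (Finset.mem_union_left _ (Finset.mem_image.2
        ⟨(s, (i, j)), Finset.mem_product.2 ⟨hs, Finset.mem_univ _⟩, rfl⟩))
    · exact Finset.mem_coe.2 (Finset.mem_union_right _ (Finset.mem_image.2
        ⟨(s, (i, j)), Finset.mem_product.2 ⟨hs, Finset.mem_univ _⟩, rfl⟩))
  have hmem : ∀ h : G, (∀ i j, (ρ h).val i j ∈ A) ∧ (∀ i j, (ρ h⁻¹).val i j ∈ A) := by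
    intro h
    have hh : h ∈ Subgroup.closure (S : Set G) := by rw [hS]; exact Subgroup.mem_top h
    refine Subgroup.closure_induction (p := fun h _ => (∀ i j, (ρ h).val i j ∈ A) ∧
      (∀ i j, (ρ h⁻¹).val i j ∈ A)) ?_ ?_ ?_ ?_ hh
    · intro s hs
      exact ⟨fun i j => (hmemE s hs i j).1, fun i j => (hmemE s hs i j).2⟩
    · have h1 : ∀ i j, (ρ (1 : G)).val i j ∈ A := by
        intro i j
        rw [map_one]
        show (1 : Matrix (Fin m) (Fin m) ℂ) i j ∈ A
        rw [Matrix.one_apply]
        split_ifs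
        · exact A.one_mem
        · exact A.zero_mem
      exact ⟨h1, by rw [inv_one]; exact h1⟩
    · intro x y _ _ hx hy
      have hm : ∀ u v : G, (∀ i j, (ρ u).val i j ∈ A) → (∀ i j, (ρ v).val i j ∈ A) →
          ∀ i j, (ρ (u * v)).val i j ∈ A := by
        intro u v hu hv i j
        rw [map_mul]
        show ((ρ u).val * (ρ v).val) i j ∈ A
        rw [Matrix.mul_apply]
        exact A.sum_mem fun k _ => A.mul_mem (hu i k) (hv k j)
      refine ⟨hm x y hx.1 hy.1, ?_⟩
      rw [mul_inv_rev]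
      exact hm _ _ hy.2 hx.2
    · intro x _ hx
      exact ⟨hx.2, by rw [inv_inv]; exact hx.1⟩
  -- the homomorphism to matrices over `A`
  set R : G →* Matrix (Fin m) (Fin m) A :=
    { toFun := fun h => Matrix.of fun i j => ⟨(ρ h).val i j, (hmem h).1 i j⟩
      map_one' := by
        ext i j
        show (ρ 1).val i j = ((1 : Matrix (Fin m) (Fin m) A) i j : ℂ)
        rw [map_one]
        show (1 : Matrix (Fin m) (Fin m) ℂ) i j = _
        rw [Matrix.one_apply, Matrix.one_apply]
        split_ifs <;> rfl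
      map_mul' := by
        intro x y
        ext i j
        show (ρ (x * y)).val i j = _
        rw [map_mul]
        show ((ρ x).val * (ρ y).val) i j = _
        rw [Matrix.mul_apply, Matrix.mul_apply]
        push_cast
        rfl } with hR
  obtain ⟨i, j, hij⟩ : ∃ i j, (ρ g).val i j ≠ (1 : Matrix (Fin m) (Fin m) ℂ) i j := by
    by_contra hcon
    push Not at hcon
    exact hg (Subtype.ext (by ext i j; exact hcon i j))
  set d : A := R g i j - (1 : Matrix (Fin m) (Fin m) A) i j with hd
  have hd0 : d ≠ 0 := by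
    intro h
    apply hij
    have h1 : R g i j = (1 : Matrix (Fin m) (Fin m) A) i j := sub_eq_zero.1 h
    have h2 := congrArg (fun x : A => (x : ℂ)) h1
    have h3 : (R g i j : ℂ) = (ρ g).val i j := rfl
    rw [← h3]
    refine h2.trans ?_
    show (((1 : Matrix (Fin m) (Fin m) A) i j : A) : ℂ) = _
    rw [Matrix.one_apply, Matrix.one_apply]
    split_ifs <;> rfl
  obtain ⟨I, _, hdI, hfin⟩ := exists_finite_quotient A d hd0
  set red : Matrix (Fin m) (Fin m) A →* Matrix (Fin m) (Fin m) (A ⧸ I) :=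
    ((Ideal.Quotient.mk I).mapMatrix : Matrix (Fin m) (Fin m) A →+* _).toMonoidHom with hred
  set f : G →* (Matrix (Fin m) (Fin m) (A ⧸ I))ˣ := (red.comp R).toHomUnits with hf
  have hfinM : Finite (Matrix (Fin m) (Fin m) (A ⧸ I)) := by
    unfold Matrix; infer_instance
  refine ⟨(Matrix (Fin m) (Fin m) (A ⧸ I))ˣ, inferInstance, inferInstance, f, fun h => hdI ?_⟩
  have h1 : red (R g) = 1 := congrArg Units.val h
  have h2 : Ideal.Quotient.mk I (R g i j) = (1 : Matrix (Fin m) (Fin m) (A ⧸ I)) i j :=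
    congrArg (fun M : Matrix (Fin m) (Fin m) (A ⧸ I) => M i j) h1
  rw [← Ideal.Quotient.eq_zero_iff_mem, hd, map_sub, h2, Matrix.one_apply, Matrix.one_apply]
  split_ifs <;> simp

end Pool.Agent.SpecFlow
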