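import Mathlib

/-!
Helper file for MP_a51306_an: monomial isometries of a Hilbert sum of copies of a Hilbert space.
-/

set_option autoImplicit false
open Filter Topology

namespace Pool.Agent.SpecFlow

variable {X : Type*} [Fintype X] {K : Type*} [NormedAddCommGroup K] [InnerProductSpace ℂ K]

/-- The isometry `e_x ⊗ v ↦ e_(σ x) ⊗ U_x v` of the Hilbert sum of copies of `K` over `X`. -/
noncomputable def mono (σ : Equiv.Perm X) (U : X → (K ≃ₗᵢ[ℂ] K)) :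
    PiLp 2 (fun _ : X => K) ≃ₗᵢ[ℂ] PiLp 2 (fun _ : X => K) :=
  (LinearIsometryEquiv.piLpCongrRight 2 U).trans (LinearIsometryEquiv.piLpCongrLeft 2 ℂ K σ)

lemma mono_apply (σ : Equiv.Perm X) (U : X → (K ≃ₗᵢ[ℂ] K)) (v : PiLp 2 (fun _ : X => K)) (x : X) :
    mono σ U v (σ x) = U x (v x) := by
  simp [mono, LinearIsometryEquiv.piLpCongrLeft_apply, Equiv.piCongrLeft']

lemma mono_one_apply (U : X → (K ≃ₗᵢ[ℂ] K)) (v : PiLp 2 (fun _ : X => K)) (x : X) :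
    mono 1 U v x = U x (v x) := mono_apply 1 U v x

lemma mono_mul_apply (σ τ : Equiv.Perm X) (U V : X → (K ≃ₗᵢ[ℂ] K))
    (v : PiLp 2 (fun _ : X => K)) :
    mono σ U (mono τ V v) = mono (σ * τ) (fun x => U (τ x) * V x) v := by
  ext y
  obtain ⟨x, rfl⟩ := (σ * τ).surjective y
  rw [mono_apply, Equiv.Perm.mul_apply, mono_apply, mono_apply]
  rfl

omit [InnerProductSpace ℂ K] in
lemma norm_sq_eq_sum (v : PiLp 2 (fun _ : X => K)) : ‖v‖ ^ 2 = ∑ x, ‖v x‖ ^ 2 := by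
  rw [PiLp.norm_sq_eq_of_L2]

omit [InnerProductSpace ℂ K] in
lemma norm_le_of_components {v w : PiLp 2 (fun _ : X => K)} {ε : ℝ} (hε : 0 ≤ ε)
    (h : ∀ x, ‖v x‖ ≤ ε * ‖w x‖) : ‖v‖ ≤ ε * ‖w‖ := by
  have h1 : ‖v‖ ^ 2 ≤ (ε * ‖w‖) ^ 2 := by
    rw [mul_pow, norm_sq_eq_sum, norm_sq_eq_sum, Finset.mul_sum]
    refine Finset.sum_le_sum fun x _ => ?_
    rw [← mul_pow]
    exact pow_le_pow_left₀ (norm_nonneg _) (h x) 2
  exact (pow_le_pow_iff_left₀ (norm_nonneg _) (by positivity) two_ne_zero).1 h1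

lemma norm_mono_sub_le (σ : Equiv.Perm X) (U V : X → (K ≃ₗᵢ[ℂ] K)) {ε : ℝ} (hε : 0 ≤ ε)
    (h : ∀ x w, ‖U x w - V x w‖ ≤ ε * ‖w‖) (v : PiLp 2 (fun _ : X => K)) :
    ‖mono σ U v - mono σ V v‖ ≤ ε * ‖v‖ := by
  have h1 : ‖v‖ = ‖mono σ V v‖ := (LinearIsometryEquiv.norm_map _ _).symm
  rw [h1]
  refine norm_le_of_components hε fun y => ?_
  obtain ⟨x, rfl⟩ := σ.surjective y
  rw [PiLp.sub_apply, mono_apply, mono_apply, LinearIsometryEquiv.norm_map]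
  exact h x _

end Pool.Agent.SpecFlow
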