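import Pool.Agent.SpecFlow.SLn
import Pool.Agent.SpecFlow.CentralMF

/-!
Helper file for MP_a51306_an: elements whose spectrum moves, or which are seen by a real character
of a subgroup of finite index.
-/

set_option autoImplicit false

namespace Pool.Agent.SpecFlow

/-- The element `z` of `G` moves: its spectrum is not constant along some continuous path of unitary
matrix representations of `G`, or `z` lies in a subgroup `K` of finite index with a homomorphism
`χ : K → ℝ` such that `χ(z) ≠ 0`. -/
def Moves (G : Type) [Group G] (z : G) : Prop :=
  Flows G z ∨ ∃ (K : Subgroup G) (_ : K.FiniteIndex) (χ : K →* Multiplicative ℝ) (hz : z ∈ K),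
    χ ⟨z, hz⟩ ≠ 1

lemma Moves.flows {G : Type} [Group G] {z : G} (h : Moves G z) : Flows G z := by
  rcases h with h | ⟨K, hK, χ, hz, hχ⟩
  · exact h
  · exact flows_of_character K χ z hz hχ

end Pool.Agent.SpecFlow
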