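import Pool.Agent.SpecFlow.Flow
import Pool.Agent.SpecFlow.Amen

/-!
Helper file for MP_a51306_an: product groups, and paths of representations induced from characters
of subgroups of finite index.
-/

set_option autoImplicit false
open Filter Topology
open scoped Classical Pointwise

namespace Pool.Agent.SpecFlow

lemma Flows.comp {G Λ : Type} [Group G] [Group Λ] (f : G →* Λ) (z : G) (h : Flows Λ (f z)) :
    Flows G z := by
  obtain ⟨m, π, hπ, s, t, hst⟩ := h
  exact ⟨m, fun t => (π t).comp f, fun g => hπ (f g), s, t, hst⟩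

/-- **Products.** -/
theorem amenable_of_prod {Γ Λ : Type} [Group Γ] [Group Λ] [Countable Γ] [Countable Λ]
    (hΓ : Lef Γ) (w : Λ) (hw : Flows Λ w) (h : MatStable (Γ × Λ)) : Amenable Γ := by
  have hf : Flows (Γ × Λ) (1, w) := Flows.comp (MonoidHom.snd Γ Λ) (1, w) hw
  refine (amenable_of_flows h hΓ (MonoidHom.fst Γ Λ) (1, w) rfl hf).of_eq_top ?_
  rw [eq_top_iff]
  intro γ _
  refine ⟨(γ, 1), ?_, rfl⟩
  rw [SetLike.mem_coe, Subgroup.mem_centralizer_singleton_iff]
  simp

/-- Matricial stability does not depend on the order of the factors. -/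
lemma MatStable.of_equiv {G G' : Type} [Group G] [Group G'] (e : G ≃* G') (h : MatStable G) :
    MatStable G' := by
  intro k φ hφ
  obtain ⟨ρ, hρ⟩ := h k (fun n g => φ n (e g)) (fun a b => by
    have := hφ (e a) (e b)
    simpa only [map_mul] using this)
  refine ⟨fun n => (ρ n).comp (e.symm : G' →* G), fun g => ?_⟩
  have := hρ (e.symm g)
  simpa using this

/-- **Products of two groups.** -/
theorem amenable_prod_of_prod {Γ Λ : Type} [Group Γ] [Group Λ] [Countable Γ] [Countable Λ]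
    (hΓ : Lef Γ) (hΛ : Lef Λ) (v : Γ) (hv : Flows Γ v) (w : Λ) (hw : Flows Λ w)
    (h : MatStable (Γ × Λ)) : Amenable (Γ × Λ) :=
  (amenable_of_prod hΓ w hw h).prod
    (amenable_of_prod hΛ v hv (h.of_equiv MulEquiv.prodComm))

/-! ### Paths induced from characters -/

/-- Multiplication by a complex number of modulus one. -/
noncomputable def rot (θ : ℝ) : ℂ ≃ₗᵢ[ℂ] ℂ where
  toFun v := Complex.exp (θ * Complex.I) * v
  invFun v := Complex.exp (-(θ * Complex.I)) * v
  map_add' v w := mul_add _ _ _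
  map_smul' c v := by simp only [smul_eq_mul, RingHom.id_apply]; ring
  left_inv v := by
    show Complex.exp (-(θ * Complex.I)) * (Complex.exp (θ * Complex.I) * v) = v
    rw [← mul_assoc, ← Complex.exp_add]; simp
  right_inv v := by
    show Complex.exp (θ * Complex.I) * (Complex.exp (-(θ * Complex.I)) * v) = v
    rw [← mul_assoc, ← Complex.exp_add]; simp
  norm_map' v := by
    show ‖Complex.exp (θ * Complex.I) * v‖ = ‖v‖
    rw [norm_mul, Complex.norm_exp_ofReal_mul_I, one_mul]

lemma rot_apply (θ : ℝ) (v : ℂ) : rot θ v = Complex.exp (θ * Complex.I) * v := rfl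

lemma rot_add (θ η : ℝ) : rot (θ + η) = rot θ * rot η := by
  ext v
  show Complex.exp (((θ + η : ℝ) : ℂ) * Complex.I) * v
    = Complex.exp (θ * Complex.I) * (Complex.exp (η * Complex.I) * v)
  push_cast
  rw [add_mul, Complex.exp_add]
  ring

lemma rot_zero : rot 0 = 1 := by
  ext v
  show Complex.exp (((0 : ℝ) : ℂ) * Complex.I) * v = v
  simp

section Induced

variable {G : Type} [Group G] (K : Subgroup G) [K.FiniteIndex] (χ : K →* Multiplicative ℝ)

noncomputable instance : Fintype (G ⧸ K) := Fintype.ofFinite _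

/-- The cocycle of the induced representation. -/
noncomputable def cocyc (g : G) (x : G ⧸ K) : K :=
  ⟨(g • x).out⁻¹ * (g * x.out), by
    rw [← QuotientGroup.eq, QuotientGroup.out_eq']
    conv_lhs => rw [← QuotientGroup.out_eq' x]
    rfl⟩

omit [K.FiniteIndex] in
lemma cocyc_mul (g h : G) (x : G ⧸ K) :
    cocyc K (g * h) x = cocyc K g (h • x) * cocyc K h x := by
  ext
  simp only [cocyc, Subgroup.coe_mul, mul_smul]
  group

/-- The induced representation. -/
noncomputable def ind (t : ℝ) : G →* (PiLp 2 (fun _ : G ⧸ K => ℂ) ≃ₗᵢ[ℂ] PiLp 2 (fun _ : G ⧸ K => ℂ)) :=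
  MonoidHom.mk' (fun g => mono (MulAction.toPerm g) (fun x => rot (t * (χ (cocyc K g x)).toAdd)))
    (fun g h => by
      ext v : 1
      rw [LinearIsometryEquiv.coe_mul, Function.comp_apply, mono_mul_apply]
      congr 2
      · ext x
        simp [mul_smul]
      · funext x
        rw [cocyc_mul, map_mul, toAdd_mul, mul_add, rot_add]
        rfl)

lemma ind_apply (t : ℝ) (g : G) (v : PiLp 2 (fun _ : G ⧸ K => ℂ)) (x : G ⧸ K) :
    ind K χ t g v (g • x) = Complex.exp ((t * (χ (cocyc K g x)).toAdd : ℝ) * Complex.I) * v x :=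
  mono_apply (MulAction.toPerm g) (fun x => rot (t * (χ (cocyc K g x)).toAdd)) v x

lemma ind_continuous (g : G) : Continuous fun t : ℝ =>
    (((ind K χ t g : PiLp 2 (fun _ : G ⧸ K => ℂ) ≃ₗᵢ[ℂ] PiLp 2 (fun _ : G ⧸ K => ℂ)) :
      PiLp 2 (fun _ : G ⧸ K => ℂ) ≃L[ℂ] PiLp 2 (fun _ : G ⧸ K => ℂ)) :
      PiLp 2 (fun _ : G ⧸ K => ℂ) →L[ℂ] PiLp 2 (fun _ : G ⧸ K => ℂ)) := by
  rw [continuous_clm_apply]
  intro v
  show Continuous fun t : ℝ => ind K χ t g v
  have h1 : Continuous fun t : ℝ => fun y : G ⧸ K => ind K χ t g v y := by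
    refine continuous_pi fun y => ?_
    obtain ⟨x, rfl⟩ := (MulAction.toPerm g : Equiv.Perm (G ⧸ K)).surjective y
    have h2 : (fun t : ℝ => ind K χ t g v ((MulAction.toPerm g : Equiv.Perm (G ⧸ K)) x))
        = fun t : ℝ => Complex.exp ((t * (χ (cocyc K g x)).toAdd : ℝ) * Complex.I) * v x := by
      funext t
      exact ind_apply K χ t g v x
    rw [h2]
    fun_prop
  exact (PiLp.continuous_toLp 2 (fun _ : G ⧸ K => ℂ)).comp h1

lemma mem_spectrum_toU {H : Type*} [NormedAddCommGroup H] [InnerProductSpace ℂ H]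
    [CompleteSpace H] {k : ℕ} (b : OrthonormalBasis (Fin k) ℂ H) (u : H ≃ₗᵢ[ℂ] H) (lam : ℂ) :
    lam ∈ spectrum ℂ (toU b u).val ↔ ∃ v : H, v ≠ 0 ∧ u v = lam • v := by
  have key : ∀ v : H, isoU k (toU b u) (b.repr v) = b.repr (u v) := by
    intro v
    have h1 := congrArg (fun T : EuclideanSpace ℂ (Fin k) →L[ℂ] EuclideanSpace ℂ (Fin k) =>
      T (b.repr v)) (isoU_val (toU b u))
    rw [toU_val, toEuclideanCLM_toM] at h1
    refine h1.trans ?_
    rw [LinearIsometryEquiv.conjStarAlgEquiv_apply_apply, LinearIsometryEquiv.symm_apply_apply]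
    rfl
  rw [mem_spectrum_iff]
  constructor
  · rintro ⟨w, hw, hwl⟩
    obtain ⟨v, rfl⟩ := b.repr.surjective w
    refine ⟨v, fun h => hw (by rw [h, map_zero]), ?_⟩
    rw [key, ← map_smul] at hwl
    exact b.repr.injective hwl
  · rintro ⟨v, hv, hvl⟩
    refine ⟨b.repr v, fun h => hv (b.repr.injective (by rw [h, map_zero])), ?_⟩
    rw [key, hvl, map_smul]

omit [K.FiniteIndex] in
lemma smul_one_eq (w : G) (hw : w ∈ K) : w • ((1 : G) : G ⧸ K) = ((1 : G) : G ⧸ K) := by
  show ((w * 1 : G) : G ⧸ K) = _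
  rw [mul_one, QuotientGroup.eq, mul_one]
  exact K.inv_mem hw

omit [K.FiniteIndex] in
lemma char_cocyc (w : G) (hw : w ∈ K) : χ (cocyc K w ((1 : G) : G ⧸ K)) = χ ⟨w, hw⟩ := by
  set x₀ : G ⧸ K := ((1 : G) : G ⧸ K) with hx₀
  have hr : x₀.out ∈ K := by
    have h1 : ((x₀.out : G) : G ⧸ K) = ((1 : G) : G ⧸ K) := QuotientGroup.out_eq' x₀
    rw [QuotientGroup.eq, mul_one] at h1
    exact (K.inv_mem_iff).1 h1
  have h2 : cocyc K w x₀ = (⟨x₀.out, hr⟩ : K)⁻¹ * (⟨w, hw⟩ * ⟨x₀.out, hr⟩) := by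
    ext
    show (w • x₀).out⁻¹ * (w * x₀.out) = x₀.out⁻¹ * (w * x₀.out)
    rw [smul_one_eq K w hw]
  rw [h2, map_mul, map_mul, map_inv, mul_comm (χ ⟨w, hw⟩), inv_mul_cancel_left]

lemma pow_apply_eq {H : Type*} [NormedAddCommGroup H] [InnerProductSpace ℂ H] (u : H ≃ₗᵢ[ℂ] H)
    (v : H) (lam : ℂ) (h : u v = lam • v) (N : ℕ) : (u ^ N) v = lam ^ N • v := by
  induction N with
  | zero => simp
  | succ N ih =>
    rw [pow_succ', LinearIsometryEquiv.coe_mul, Function.comp_apply, ih, map_smul, h, smul_smul,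
      pow_succ]

/-- A character of a subgroup of finite index moves the spectrum. -/
theorem flows_of_character (w : G) (hw : w ∈ K) (hχ : χ ⟨w, hw⟩ ≠ 1) : Flows G w := by
  set b := stdOrthonormalBasis ℂ (PiLp 2 (fun _ : G ⧸ K => ℂ)) with hb
  set a : ℝ := (χ ⟨w, hw⟩).toAdd with ha
  have ha0 : a ≠ 0 := fun h => hχ (Multiplicative.toAdd.injective h)
  set N : ℕ := orderOf (MulAction.toPerm w : Equiv.Perm (G ⧸ K)) with hN
  have hN0 : 0 < N := orderOf_pos _
  have hN0' : (N : ℝ) ≠ 0 := by exact_mod_cast hN0.ne'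
  refine ⟨Module.finrank ℂ (PiLp 2 (fun _ : G ⧸ K => ℂ)),
    fun t => (toU b).toMonoidHom.comp (ind K χ t), fun g => ?_,
    Real.pi / (N * a), 0, fun heq => ?_⟩
  · have h1 : Continuous fun T : (PiLp 2 (fun _ : G ⧸ K => ℂ)) →L[ℂ] (PiLp 2 (fun _ : G ⧸ K => ℂ)) =>
        toM b T := LinearMap.continuous_of_finiteDimensional ((toM b).toAlgEquiv.toLinearMap)
    exact h1.comp (ind_continuous K χ g)
  · have h2 : Complex.exp ((Real.pi / N : ℝ) * Complex.I)
        ∈ spectrum ℂ (toU b (ind K χ (Real.pi / (N * a)) w)).val := by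
      rw [mem_spectrum_toU]
      set x₀ : G ⧸ K := ((1 : G) : G ⧸ K) with hx₀
      refine ⟨PiLp.single 2 x₀ 1, ?_, ?_⟩
      · intro h
        have := congrArg (fun v : PiLp 2 (fun _ : G ⧸ K => ℂ) => v x₀) h
        simp at this
      · ext y
        obtain ⟨x, rfl⟩ := (MulAction.toPerm w : Equiv.Perm (G ⧸ K)).surjective y
        rw [MulAction.toPerm_apply, ind_apply, PiLp.smul_apply, smul_eq_mul]
        rcases eq_or_ne x x₀ with rfl | hx
        · rw [smul_one_eq K w hw, PiLp.single_eq_same, char_cocyc K χ w hw]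
          congr 3
          rw [← ha]
          norm_cast
          field_simp
        · have hx' : w • x ≠ x₀ := by
            intro h
            apply hx
            have h3 : w • x = w • x₀ := h.trans (smul_one_eq K w hw).symm
            exact MulAction.injective w h3
          have e1 : (PiLp.single 2 x₀ (1 : ℂ) : PiLp 2 (fun _ : G ⧸ K => ℂ)) x = 0 := by
            simp [hx]
          have e2 : (PiLp.single 2 x₀ (1 : ℂ) : PiLp 2 (fun _ : G ⧸ K => ℂ)) (w • x) = 0 := by
            simp [hx']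
          rw [e1, e2, mul_zero, mul_zero]
    have h4 : Complex.exp ((Real.pi / N : ℝ) * Complex.I)
        ∈ spectrum ℂ (toU b (ind K χ 0 w)).val := by
      have h5 : spectrum ℂ (toU b (ind K χ (Real.pi / (N * a)) w)).val
        = spectrum ℂ (toU b (ind K χ 0 w)).val := heq
      rw [← h5]
      exact h2
    rw [mem_spectrum_toU] at h4
    obtain ⟨v, hv, hvl⟩ := h4
    have h6 := pow_apply_eq _ v _ hvl N
    rw [← map_pow] at h6
    have h7 : ind K χ 0 (w ^ N) v = v := by
      ext y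
      obtain ⟨x, rfl⟩ := (MulAction.toPerm (w ^ N) : Equiv.Perm (G ⧸ K)).surjective y
      have h8 : (w ^ N) • x = x := by
        have h9 : (MulAction.toPerm (w ^ N) : Equiv.Perm (G ⧸ K)) = 1 := by
          have h10 := map_pow (MulAction.toPermHom G (G ⧸ K)) w N
          rw [MulAction.toPermHom_apply, MulAction.toPermHom_apply] at h10
          rw [h10, hN, pow_orderOf_eq_one]
        exact congrArg (fun σ : Equiv.Perm (G ⧸ K) => σ x) h9
      rw [MulAction.toPerm_apply, ind_apply, h8]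
      simp
    rw [h7, ← Complex.exp_nat_mul] at h6
    have h11 : Complex.exp ((N : ℂ) * ((Real.pi / N : ℝ) * Complex.I)) = -1 := by
      rw [← Complex.exp_pi_mul_I]
      congr 1
      rw [← mul_assoc]
      congr 1
      have : ((N : ℂ)) ≠ 0 := by exact_mod_cast hN0.ne'
      push_cast
      field_simp
    rw [h11] at h6
    apply hv
    have h12 : (2 : ℂ) • v = 0 := by
      rw [two_smul]
      nth_rewrite 1 [h6]
      simp
    exact (smul_eq_zero.1 h12).resolve_left two_ne_zero

end Induced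

end Pool.Agent.SpecFlow
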