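import Pool.Agent.SpecFlow.Central

/-!
Helper file for MP_a51306_an: the groups `SL_n(ℤ)`, `n ≥ 2`, are residually finite and not amenable.
-/

set_option autoImplicit false
open Filter Topology
open scoped Classical

namespace Pool.Agent.SpecFlow

open Matrix

variable {n : ℕ}

instance countable_SL : Countable (SpecialLinearGroup (Fin n) ℤ) := by
  have h1 : Function.Injective fun (g : SpecialLinearGroup (Fin n) ℤ) (p : Fin n × Fin n) =>
      (g.val p.1 p.2 : ℤ) := by
    intro g h hgh
    ext i j
    exact congrFun hgh (i, j)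
  exact h1.countable

theorem resFin_SL : ResFin (SpecialLinearGroup (Fin n) ℤ) := by
  intro g hg
  obtain ⟨i, j, hij⟩ : ∃ i j, g.val i j ≠ (1 : Matrix (Fin n) (Fin n) ℤ) i j := by
    by_contra hcon
    push Not at hcon
    exact hg (by ext i j; exact hcon i j)
  set d : ℤ := g.val i j - (1 : Matrix (Fin n) (Fin n) ℤ) i j with hd
  have hd0 : d ≠ 0 := sub_ne_zero.2 hij
  have hN : NeZero (d.natAbs + 1) := ⟨Nat.succ_ne_zero _⟩
  refine ⟨SpecialLinearGroup (Fin n) (ZMod (d.natAbs + 1)), inferInstance, inferInstance,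
    SpecialLinearGroup.map (Int.castRingHom (ZMod (d.natAbs + 1))), fun h => ?_⟩
  have h1 : ((g.val i j : ℤ) : ZMod (d.natAbs + 1))
      = (((1 : Matrix (Fin n) (Fin n) ℤ) i j : ℤ) : ZMod (d.natAbs + 1)) := by
    have h2 := congrArg (fun m : SpecialLinearGroup (Fin n) (ZMod (d.natAbs + 1)) => m.val i j) h
    have h3 : ((g.val i j : ℤ) : ZMod (d.natAbs + 1))
        = (1 : Matrix (Fin n) (Fin n) (ZMod (d.natAbs + 1))) i j := h2
    rw [h3, Matrix.one_apply, Matrix.one_apply]
    split_ifs <;> simp
  have h4 : ((d : ℤ) : ZMod (d.natAbs + 1)) = 0 := by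
    rw [hd]
    push_cast
    rw [h1]
    ring
  rw [ZMod.intCast_zmod_eq_zero_iff_dvd] at h4
  have h5 := Int.le_of_dvd (Int.natAbs_pos.2 hd0 |> fun h => by exact_mod_cast h :
    (0 : ℤ) < (d.natAbs : ℤ)) (Int.dvd_natAbs.2 h4)
  omega

/-- The elementary matrices used. -/
noncomputable def tv (p : Fin n × Fin n) (k : ℕ) : SpecialLinearGroup (Fin n) ℤ :=
  if h : p.1 ≠ p.2 then SpecialLinearGroup.transvection h (3 * k : ℤ) else 1

lemma tv_same {i j : Fin n} (h : i ≠ j) (k : ℕ) (g : SpecialLinearGroup (Fin n) ℤ) (b : Fin n) :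
    (tv (i, j) k * g).val i b = g.val i b + 3 * k * g.val j b := by
  rw [tv, dif_pos (show (i, j).1 ≠ (i, j).2 from h)]
  exact transvection_mul_apply_same i j b (3 * k : ℤ) g.val

lemma tv_ne {i j : Fin n} (h : i ≠ j) (k : ℕ) (g : SpecialLinearGroup (Fin n) ℤ) (b : Fin n) :
    (tv (i, j) k * g).val j b = g.val j b := by
  rw [tv, dif_pos (show (i, j).1 ≠ (i, j).2 from h)]
  exact transvection_mul_apply_of_ne i j j b h.symm (3 * k : ℤ) g.val

theorem not_amenable_SL (hn : 2 ≤ n) : ¬ Amenable (SpecialLinearGroup (Fin n) ℤ) := by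
  intro ham
  set K : ℕ := 4 * n ^ 2 with hK
  have hn0 : (0 : ℝ) < n := by exact_mod_cast (by omega : 0 < n)
  have hK0 : (0 : ℝ) < K := by rw [hK]; push_cast; positivity
  set S : Finset (SpecialLinearGroup (Fin n) ℤ) :=
    ((Finset.univ : Finset (Fin n × Fin n)) ×ˢ Finset.range K).image fun r => tv r.1 r.2 with hS
  obtain ⟨F, hFne, hF⟩ := ham S (1 / K) (by positivity)
  have hF0 : (0 : ℝ) < F.card := by exact_mod_cast hFne.card_pos
  set b : Fin n := ⟨0, by omega⟩ with hb
  set A : Fin n × Fin n → SpecialLinearGroup (Fin n) ℤ → Prop := fun p g =>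
    p.1 ≠ p.2 ∧ g.val p.2 b ≠ 0 ∧ |g.val p.1 b| ≤ |g.val p.2 b| with hA
  -- the cover
  have hcover : F ⊆ (Finset.univ : Finset (Fin n × Fin n)).biUnion fun p => F.filter (A p) := by
    intro g hg
    obtain ⟨j, -, hj⟩ := Finset.exists_max_image Finset.univ (fun j => |g.val j b|)
      ⟨b, Finset.mem_univ _⟩
    have hj0 : g.val j b ≠ 0 := by
      intro h0
      have hall : ∀ k, g.val k b = 0 := by
        intro k
        have := hj k (Finset.mem_univ k)
        rw [h0, abs_zero] at this
        exact abs_nonpos_iff.1 this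
      have h0' : (g⁻¹).val * g.val = 1 := congrArg Subtype.val (inv_mul_cancel g)
      have h1 : ((g⁻¹).val * g.val) b b = 1 := by rw [h0', Matrix.one_apply_eq]
      rw [Matrix.mul_apply] at h1
      simp only [hall, mul_zero, Finset.sum_const_zero] at h1
      exact absurd h1 zero_ne_one
    obtain ⟨i, hi⟩ : ∃ i : Fin n, i ≠ j := by
      have : Nontrivial (Fin n) := Fin.nontrivial_iff_two_le.2 hn
      exact exists_ne j
    rw [Finset.mem_biUnion]
    exact ⟨(i, j), Finset.mem_univ _, Finset.mem_filter.2 ⟨hg, hi, hj0, hj i (Finset.mem_univ i)⟩⟩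
  -- the bound of each piece
  have hpiece : ∀ p : Fin n × Fin n, (((F.filter (A p)).card : ℕ) : ℝ) ≤ 2 / K * F.card := by
    rintro ⟨i, j⟩
    by_cases hij : i = j
    · have : F.filter (A (i, j)) = ∅ := by
        rw [Finset.filter_eq_empty_iff]
        intro g _ hg
        exact hg.1 hij
      rw [this, Finset.card_empty, Nat.cast_zero]
      positivity
    set B := F.filter (A (i, j)) with hB
    set Bk : ℕ → Finset (SpecialLinearGroup (Fin n) ℤ) := fun k =>
      B.filter fun x => tv (i, j) k * x ∈ F with hBk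
    have h1 : ∀ k ∈ Finset.range K, (B.card : ℝ) - 1 / K * F.card ≤ (Bk k).card := by
      intro k hk
      have h2 : (((F.filter fun x => tv (i, j) k * x ∉ F).card : ℕ) : ℝ) ≤ 1 / K * F.card := by
        convert hF (tv (i, j) k) (Finset.mem_image.2
          ⟨((i, j), k), Finset.mem_product.2 ⟨Finset.mem_univ _, hk⟩, rfl⟩)
      have h3 : B ⊆ Bk k ∪ F.filter fun x => tv (i, j) k * x ∉ F := by
        intro x hx
        rw [Finset.mem_union]
        by_cases hx' : tv (i, j) k * x ∈ F
        · exact Or.inl (Finset.mem_filter.2 ⟨hx, hx'⟩)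
        · exact Or.inr (Finset.mem_filter.2 ⟨(Finset.mem_filter.1 hx).1, hx'⟩)
      have h4 := (Finset.card_le_card h3).trans (Finset.card_union_le _ _)
      have h5 : (B.card : ℝ) ≤ (Bk k).card
          + (((F.filter fun x => tv (i, j) k * x ∉ F).card : ℕ) : ℝ) := by exact_mod_cast h4
      linarith
    have h6 : ∑ k ∈ Finset.range K, ((Bk k).card : ℝ) ≤ F.card := by
      have hdisj : ∀ k ∈ Finset.range K, ∀ l ∈ Finset.range K, k ≠ l →
          Disjoint ((Bk k).image fun x => tv (i, j) k * x)
            ((Bk l).image fun x => tv (i, j) l * x) := by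
        intro k _ l _ hkl
        rw [Finset.disjoint_left]
        intro y hy hy'
        obtain ⟨x, hx, rfl⟩ := Finset.mem_image.1 hy
        obtain ⟨x', hx', heq⟩ := Finset.mem_image.1 hy'
        have hxA : A (i, j) x := (Finset.mem_filter.1 (Finset.mem_filter.1 hx).1).2
        have hxA' : A (i, j) x' := (Finset.mem_filter.1 (Finset.mem_filter.1 hx').1).2
        have e1 := congrArg (fun g : SpecialLinearGroup (Fin n) ℤ => g.val i b) heq
        have e2 := congrArg (fun g : SpecialLinearGroup (Fin n) ℤ => g.val j b) heq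
        change (tv (i, j) l * x').val i b = (tv (i, j) k * x).val i b at e1
        change (tv (i, j) l * x').val j b = (tv (i, j) k * x).val j b at e2
        rw [tv_same hij, tv_same hij] at e1
        rw [tv_ne hij, tv_ne hij] at e2
        rw [e2] at e1
        have a1 : |x.val i b| ≤ |x.val j b| := hxA.2.2
        have a2 : |x'.val i b| ≤ |x.val j b| := by rw [← e2]; exact hxA'.2.2
        have a3 : (0 : ℤ) < |x.val j b| := abs_pos.2 hxA.2.1
        have e3 : (3 * ((l : ℤ) - k)) * x.val j b = x.val i b - x'.val i b := by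
          linear_combination e1
        have e4 : |3 * ((l : ℤ) - k)| * |x.val j b| ≤ 2 * |x.val j b| := by
          rw [← abs_mul, e3]
          calc |x.val i b - x'.val i b| ≤ |x.val i b| + |x'.val i b| := abs_sub _ _
            _ ≤ 2 * |x.val j b| := by linarith
        have e5 := le_of_mul_le_mul_right e4 a3
        have e6 : (l : ℤ) - k ≠ 0 := by
          intro h
          apply hkl
          omega
        rw [abs_mul] at e5
        have e7 : (1 : ℤ) ≤ |(l : ℤ) - k| := Int.one_le_abs e6
        have e8 : |(3 : ℤ)| = 3 := rfl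
        rw [e8] at e5
        linarith
      have h7 : (((Finset.range K).biUnion fun k => (Bk k).image fun x => tv (i, j) k * x).card : ℝ)
          ≤ F.card := by
        rw [Nat.cast_le]
        refine Finset.card_le_card ?_
        intro y hy
        rw [Finset.mem_biUnion] at hy
        obtain ⟨k, _, hy⟩ := hy
        obtain ⟨x, hx, rfl⟩ := Finset.mem_image.1 hy
        exact (Finset.mem_filter.1 hx).2
      rw [Finset.card_biUnion hdisj] at h7
      push_cast at h7
      refine le_trans (le_of_eq ?_) h7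
      refine Finset.sum_congr rfl fun k _ => ?_
      rw [Finset.card_image_of_injective _ (mul_right_injective _)]
    have h8 : (K : ℝ) * ((B.card : ℝ) - 1 / K * F.card) ≤ F.card := by
      refine le_trans ?_ h6
      calc (K : ℝ) * ((B.card : ℝ) - 1 / K * F.card)
          = ∑ _k ∈ Finset.range K, ((B.card : ℝ) - 1 / K * F.card) := by
            rw [Finset.sum_const, Finset.card_range, nsmul_eq_mul]
        _ ≤ ∑ k ∈ Finset.range K, ((Bk k).card : ℝ) := Finset.sum_le_sum h1
    have h9 : (B.card : ℝ) - 1 / K * F.card ≤ F.card / K := by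
      rw [le_div_iff₀ hK0]
      linarith
    have h10 : 2 / (K : ℝ) * F.card = F.card / K + 1 / K * F.card := by ring
    rw [h10]
    linarith
  have hfin : (F.card : ℝ) ≤ n ^ 2 * (2 / K * F.card) := by
    calc (F.card : ℝ) ≤ (((Finset.univ : Finset (Fin n × Fin n)).biUnion
          fun p => F.filter (A p)).card : ℝ) := by exact_mod_cast Finset.card_le_card hcover
      _ ≤ ∑ p : Fin n × Fin n, ((F.filter (A p)).card : ℝ) := by
          exact_mod_cast Finset.card_biUnion_le
      _ ≤ ∑ _p : Fin n × Fin n, 2 / (K : ℝ) * F.card := Finset.sum_le_sum fun p _ => hpiece p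
      _ = n ^ 2 * (2 / K * F.card) := by
          rw [Finset.sum_const, Finset.card_univ, Fintype.card_prod, Fintype.card_fin,
            nsmul_eq_mul]
          push_cast
          ring
  have hKn : (K : ℝ) = 4 * n ^ 2 := by rw [hK]; push_cast; ring
  have h11 : (n : ℝ) ^ 2 * (2 / K * F.card) = F.card / 2 := by
    rw [hKn]
    field_simp
    ring
  rw [h11] at hfin
  linarith

/-- **Examples.** -/
theorem not_matStable_SL_prod (hn : 2 ≤ n) {Λ : Type} [Group Λ] [Countable Λ] (w : Λ)
    (hw : Flows Λ w) : ¬ MatStable (SpecialLinearGroup (Fin n) ℤ × Λ) := fun h =>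
  not_amenable_SL hn (amenable_of_prod resFin_SL.lef w hw h)

end Pool.Agent.SpecFlow
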