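import Mathlib

/-!
Helper file for MP_a51306_an (spectral flow and amenability): the definition of matricial stability
and its reformulation with isometries of finite-dimensional Hilbert spaces.
-/

set_option autoImplicit false
open Filter Topology

namespace Pool.Agent.SpecFlow

/-- The operator norm of a `k × k` matrix. -/
noncomputable def op {k : ℕ} (A : Matrix (Fin k) (Fin k) ℂ) : ℝ :=
  ‖Matrix.toEuclideanCLM (𝕜 := ℂ) A‖

/-- `G` is matricially stable: every asymptotic homomorphism of `G` to unitary matrices, for the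
operator norm, is asymptotically equal to a sequence of homomorphisms. -/
def MatStable (G : Type) [Group G] : Prop :=
  ∀ (k : ℕ → ℕ) (φ : ∀ n : ℕ, G → Matrix.unitaryGroup (Fin (k n)) ℂ),
    (∀ g h : G, Tendsto (fun n : ℕ =>
      op ((φ n (g * h)).val - (φ n g).val * (φ n h).val)) atTop (𝓝 0)) →
    ∃ ρ : ∀ n : ℕ, G →* Matrix.unitaryGroup (Fin (k n)) ℂ,
      ∀ g : G, Tendsto (fun n : ℕ => op ((φ n g).val - (ρ n g).val)) atTop (𝓝 0)

section Transfer

variable {H : Type*} [NormedAddCommGroup H] [InnerProductSpace ℂ H] [CompleteSpace H]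

/-- Continuous operators on a space with an orthonormal basis are matrices. -/
noncomputable def toM {k : ℕ} (b : OrthonormalBasis (Fin k) ℂ H) :
    (H →L[ℂ] H) ≃⋆ₐ[ℂ] Matrix (Fin k) (Fin k) ℂ :=
  b.repr.conjStarAlgEquiv.trans (Matrix.toEuclideanCLM (n := Fin k) (𝕜 := ℂ)).symm

/-- The unitary matrix of an isometry in an orthonormal basis. -/
noncomputable def toU {k : ℕ} (b : OrthonormalBasis (Fin k) ℂ H) :
    (H ≃ₗᵢ[ℂ] H) ≃* Matrix.unitaryGroup (Fin k) ℂ :=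
  (Unitary.linearIsometryEquiv (𝕜 := ℂ) (H := H)).symm.trans
    (Unitary.mapEquiv (⟨⟨(toM b).toEquiv, map_mul (toM b)⟩, map_star (toM b)⟩ :
      (H →L[ℂ] H) ≃⋆* Matrix (Fin k) (Fin k) ℂ)).toMulEquiv

lemma toU_val {k : ℕ} (b : OrthonormalBasis (Fin k) ℂ H) (u : H ≃ₗᵢ[ℂ] H) :
    (toU b u).val = toM b ((u : H ≃L[ℂ] H) : H →L[ℂ] H) := rfl

lemma toEuclideanCLM_toM {k : ℕ} (b : OrthonormalBasis (Fin k) ℂ H) (u : H →L[ℂ] H) :
    Matrix.toEuclideanCLM (𝕜 := ℂ) (toM b u) = b.repr.conjStarAlgEquiv u := by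
  show Matrix.toEuclideanCLM (𝕜 := ℂ) ((Matrix.toEuclideanCLM (n := Fin k) (𝕜 := ℂ)).symm
    (b.repr.conjStarAlgEquiv u)) = _
  rw [StarAlgEquiv.apply_symm_apply]

lemma op_toM {k : ℕ} (b : OrthonormalBasis (Fin k) ℂ H) (u : H →L[ℂ] H) :
    op (toM b u) = ‖u‖ := by
  unfold op
  rw [toEuclideanCLM_toM]
  refine le_antisymm ?_ ?_
  · refine ContinuousLinearMap.opNorm_le_bound _ (norm_nonneg _) fun v => ?_
    rw [LinearIsometryEquiv.conjStarAlgEquiv_apply_apply, LinearIsometryEquiv.norm_map]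
    refine (u.le_opNorm _).trans_eq ?_
    rw [LinearIsometryEquiv.norm_map]
  · refine ContinuousLinearMap.opNorm_le_bound _ (norm_nonneg _) fun v => ?_
    have h := (b.repr.conjStarAlgEquiv u).le_opNorm (b.repr v)
    rw [LinearIsometryEquiv.conjStarAlgEquiv_apply_apply, LinearIsometryEquiv.norm_map,
      LinearIsometryEquiv.norm_map, LinearIsometryEquiv.symm_apply_apply] at h
    exact h

end Transfer

/-- Matricial stability, for isometries of abstract finite-dimensional Hilbert spaces. -/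
theorem MatStable.abstract {G : Type} [Group G] (hG : MatStable G) (H : ℕ → Type)
    [∀ n, NormedAddCommGroup (H n)] [∀ n, InnerProductSpace ℂ (H n)]
    [∀ n, CompleteSpace (H n)] [∀ n, FiniteDimensional ℂ (H n)]
    (φ : ∀ n, G → (H n ≃ₗᵢ[ℂ] H n))
    (hφ : ∀ g h : G, ∀ ε : ℝ, 0 < ε → ∀ᶠ n in atTop, ∀ v : H n,
      ‖φ n (g * h) v - φ n g (φ n h v)‖ ≤ ε * ‖v‖) :
    ∃ ψ : ∀ n, G →* (H n ≃ₗᵢ[ℂ] H n), ∀ g : G, ∀ ε : ℝ, 0 < ε → ∀ᶠ n in atTop, ∀ v : H n,
      ‖φ n g v - ψ n g v‖ ≤ ε * ‖v‖ := by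
  set b := fun n => stdOrthonormalBasis ℂ (H n) with hb
  have key : ∀ g h : G, Tendsto (fun n : ℕ => op ((toU (b n) (φ n (g * h))).val
        - (toU (b n) (φ n g)).val * (toU (b n) (φ n h)).val)) atTop (𝓝 0) := by
    intro g h
    rw [Metric.tendsto_nhds]
    intro ε hε
    filter_upwards [hφ g h (ε / 2) (half_pos hε)] with n hn
    have h2 : op ((toU (b n) (φ n (g * h))).val
        - (toU (b n) (φ n g)).val * (toU (b n) (φ n h)).val)
        = ‖((φ n (g * h) : H n ≃L[ℂ] H n) : H n →L[ℂ] H n)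
          - ((φ n g : H n ≃L[ℂ] H n) : H n →L[ℂ] H n) * ((φ n h : H n ≃L[ℂ] H n) : H n →L[ℂ] H n)‖ := by
      rw [toU_val, toU_val, toU_val, ← map_mul, ← map_sub, op_toM]
    rw [h2, dist_zero_right, norm_norm]
    refine lt_of_le_of_lt ?_ (half_lt_self hε)
    refine ContinuousLinearMap.opNorm_le_bound _ (half_pos hε).le fun v => ?_
    exact hn v
  obtain ⟨ρ, hρ⟩ := hG (fun n => Module.finrank ℂ (H n)) (fun n g => toU (b n) (φ n g)) key
  refine ⟨fun n => ((toU (b n)).symm : _ →* _).comp (ρ n), fun g ε hε => ?_⟩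
  filter_upwards [(hρ g).eventually_lt_const hε] with n hn v
  set w : H n ≃ₗᵢ[ℂ] H n := (toU (b n)).symm (ρ n g) with hw
  have h1 : ρ n g = toU (b n) w := by rw [hw, MulEquiv.apply_symm_apply]
  have h2 : op ((toU (b n) (φ n g)).val - (ρ n g).val)
      = ‖((φ n g : H n ≃L[ℂ] H n) : H n →L[ℂ] H n) - ((w : H n ≃L[ℂ] H n) : H n →L[ℂ] H n)‖ := by
    rw [h1, toU_val, toU_val, ← map_sub, op_toM]
  rw [h2] at hn
  exact (((φ n g : H n ≃L[ℂ] H n) : H n →L[ℂ] H n)
    - ((w : H n ≃L[ℂ] H n) : H n →L[ℂ] H n)).le_of_opNorm_le hn.le v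

end Pool.Agent.SpecFlow
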